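import Mathlib
import Pool.Agent.N781.FV.MinorG

/-! Functions `F` with `F (p m) = g(p) G(m)` at the primes: the minor arcs. -/

namespace Pool.Agent.N781.OM

open Finset Filter Topology Pool.Agent.N675 Pool.Agent.N781.FV

section

variable {ι σ : Type} [Fintype ι] [DecidableEq ι] [Fintype σ] [DecidableEq σ]

/-- `F` and `G` are bounded by `1`, and `F (p m) = g(p) G(m)` for the primes `p` of `[P0, T]` and the
`m` which are not divisible by `p` -/
def MG (F : ι → ℤ → ℂ) (g : ι → ℕ → ℂ) (G : ι → ℤ → ℂ) (P0 T : ℕ) : Prop :=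
  (∀ i m, ‖F i m‖ ≤ 1) ∧ (∀ i m, ‖G i m‖ ≤ 1) ∧
    (∀ i p, p.Prime → P0 ≤ p → p ≤ T → ‖g i p‖ ≤ 1) ∧
    ∀ i p, p.Prime → P0 ≤ p → p ≤ T → ∀ m : ℤ, ¬ (p : ℤ) ∣ m → F i ((p : ℤ) * m) = g i p * G i m

/-- multiplicativity at the prime `p` -/
lemma TF_mult2 (ψ : ι → σ → ℤ) (p : ℕ) (hp : p.Prime)
    (hps : ∀ i, ∃ s, ¬ (p : ℤ) ∣ ψ i s) (B : σ → ℕ) (hB : ∀ s, p ≤ B s)
    (F G : ι → ℤ → ℂ) (hF : ∀ i m, ‖F i m‖ ≤ 1)
    (hG : ∀ i m, ‖G i m‖ ≤ 1) (g : ι → ℂ) (hg : ∀ i, ‖g i‖ ≤ 1)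
    (hm : ∀ i m, ¬ (p : ℤ) ∣ m → F i ((p : ℤ) * m) = g i * G i m) (θ : σ → ℝ) :
    ‖TF ψ (fun i m => F i ((p : ℤ) * m)) B θ - (∏ i, g i) * TF ψ G B θ‖
      ≤ 4 * Fintype.card ι / p := by
  classical
  have hp0 : (0 : ℝ) < p := by exact_mod_cast hp.pos
  have hBpos : ∀ s, (0 : ℝ) < B s := fun s => by
    have := hB s
    have h2 := hp.pos
    exact_mod_cast (by omega : 0 < B s)
  have hPpos : (0 : ℝ) < ∏ s, (B s : ℝ) := Finset.prod_pos fun s _ => hBpos s
  have e0 : (∏ i, g i) * TF ψ G B θ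
      = EE B (fun y => (∏ i, g i) * (eR (∑ s, θ s * y s) * ∏ i, G i (LL ψ i y))) := by
    unfold TF EE
    rw [← Finset.mul_sum, mul_div_assoc]
  rw [e0]
  unfold TF EE
  rw [← sub_div, ← Finset.sum_sub_distrib, norm_div, norm_prod]
  simp only [Complex.norm_natCast]
  rw [div_le_iff₀ hPpos]
  set Z := (Box B).filter (fun y => ∃ i, (p : ℤ) ∣ LL ψ i y) with hZ
  have h1 : ‖∑ y ∈ Box B, (eR (∑ s, θ s * y s) * ∏ i, F i ((p : ℤ) * LL ψ i y)
      - (∏ i, g i) * (eR (∑ s, θ s * y s) * ∏ i, G i (LL ψ i y)))‖ ≤ 2 * Z.card := by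
    refine (norm_sum_le _ _).trans ?_
    calc _ ≤ ∑ y ∈ Box B, (if ∃ i, (p : ℤ) ∣ LL ψ i y then (2 : ℝ) else 0) := by
          refine Finset.sum_le_sum fun y _ => ?_
          split_ifs with hy
          · have a1 := TF_norm ψ (fun i m => F i ((p : ℤ) * m)) (fun i m => hF i _) θ y
            have a2 := TF_norm ψ G hG θ y
            have a3 : ‖∏ i, g i‖ ≤ 1 := by
              rw [norm_prod]
              exact Finset.prod_le_one (fun _ _ => norm_nonneg _) fun i _ => hg i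
            have a4 : ‖(∏ i, g i) * (eR (∑ s, θ s * y s) * ∏ i, G i (LL ψ i y))‖ ≤ 1 := by
              rw [norm_mul]
              exact mul_le_one₀ a3 (norm_nonneg _) a2
            have := norm_sub_le (eR (∑ s, θ s * y s) * ∏ i, F i ((p : ℤ) * LL ψ i y))
              ((∏ i, g i) * (eR (∑ s, θ s * y s) * ∏ i, G i (LL ψ i y)))
            linarith
          · push Not at hy
            have : ∏ i, F i ((p : ℤ) * LL ψ i y) = (∏ i, g i) * ∏ i, G i (LL ψ i y) := by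
              rw [← Finset.prod_mul_distrib]
              exact Finset.prod_congr rfl fun i _ => hm i _ (hy i)
            rw [this]
            have e : eR (∑ s, θ s * y s) * ((∏ i, g i) * ∏ i, G i (LL ψ i y))
              - (∏ i, g i) * (eR (∑ s, θ s * y s) * ∏ i, G i (LL ψ i y)) = 0 := by ring
            rw [e, norm_zero]
      _ = 2 * Z.card := by
          rw [← Finset.sum_filter, Finset.sum_const, nsmul_eq_mul, hZ, mul_comm]
  refine h1.trans ?_
  have hsub : Z ⊆ Finset.univ.biUnion (fun i => (Box B).filter (fun y => (p : ℤ) ∣ ∑ s, ψ i s * y s)) := by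
    intro y hy
    rw [hZ, Finset.mem_filter] at hy
    obtain ⟨hy1, i, hi⟩ := hy
    rw [Finset.mem_biUnion]
    exact ⟨i, Finset.mem_univ i, Finset.mem_filter.mpr ⟨hy1, hi⟩⟩
  have h2 : (Z.card : ℝ) ≤ ∑ i : ι, (((Box B).filter (fun y => (p : ℤ) ∣ ∑ s, ψ i s * y s)).card : ℝ) := by
    have := (Finset.card_le_card hsub).trans Finset.card_biUnion_le
    exact_mod_cast this
  have h3 : ∑ i : ι, (((Box B).filter (fun y => (p : ℤ) ∣ ∑ s, ψ i s * y s)).card : ℝ)
      ≤ ∑ _i : ι, 2 * (∏ s, (B s : ℝ)) / p := by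
    refine Finset.sum_le_sum fun i _ => ?_
    obtain ⟨s, hs⟩ := hps i
    rw [le_div_iff₀ hp0]
    exact div_count (ψ i) s p hp hs B (hB s)
  rw [Finset.sum_const, Finset.card_univ, nsmul_eq_mul] at h3
  calc 2 * (Z.card : ℝ) ≤ 2 * (Fintype.card ι * (2 * (∏ s, (B s : ℝ)) / p)) := by linarith
    _ = _ := by ring

/-- The dilation principle for functions which are multiplicative at the primes of a set. -/
theorem dil_mult2 (ψ : ι → σ → ℤ) (hψ : ∀ i, ψ i ≠ 0) (ε : ℝ) (hε : 0 < ε) :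
    ∃ (C : ℝ) (P0 : ℕ), ∀ P : Finset ℕ, (∀ p ∈ P, p.Prime ∧ P0 ≤ p) → ∃ K : ℕ, 0 < K ∧
      ∀ B : σ → ℕ, (∀ s, K ≤ B s) → ∀ (F G : ι → ℤ → ℂ) (g : ι → ℕ → ℂ) (θ : σ → ℝ),
        (∀ i m, ‖F i m‖ ≤ 1) → (∀ i m, ‖G i m‖ ≤ 1) → (∀ i, ∀ p ∈ P, ‖g i p‖ ≤ 1) →
        (∀ i, ∀ p ∈ P, ∀ m : ℤ, ¬ (p : ℤ) ∣ m → F i ((p : ℤ) * m) = g i p * G i m) →
        ∑ p ∈ P, (1 / (p : ℝ)) * ‖TF ψ F B θ
          - (∏ i, g i p) * TF ψ G (fun s => B s / p) (fun s => (p : ℝ) * θ s)‖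
          ≤ C + ε * ∑ p ∈ P, 1 / (p : ℝ) := by
  classical
  obtain ⟨C, hC⟩ := dil_cont ψ hψ ε hε
  set k := Fintype.card ι with hk
  set P0 : ℕ := ∑ i, ∑ s, (ψ i s).natAbs + 1 with hP0
  have hP0' : ∀ i s, (ψ i s).natAbs < P0 := by
    intro i s
    have h1 : (ψ i s).natAbs ≤ ∑ s, (ψ i s).natAbs :=
      Finset.single_le_sum (f := fun s => (ψ i s).natAbs) (fun _ _ => Nat.zero_le _)
        (Finset.mem_univ s)
    have h2 : ∑ s, (ψ i s).natAbs ≤ ∑ i, ∑ s, (ψ i s).natAbs :=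
      Finset.single_le_sum (f := fun i => ∑ s, (ψ i s).natAbs) (fun _ _ => Nat.zero_le _)
        (Finset.mem_univ i)
    omega
  refine ⟨C + 4 * k, P0, fun P hP => ?_⟩
  obtain ⟨K, hK0, hK⟩ := hC P fun p hp => (hP p hp).1
  refine ⟨K + (P.sup id) ^ 2 , by omega, fun B hB F G g θ hF hG hg hm => ?_⟩
  have h1 := hK B (fun s => by have := hB s; omega) F θ hF
  have h2 : ∀ p ∈ P, (1 / (p : ℝ)) * ‖TF ψ F B θ
          - (∏ i, g i p) * TF ψ G (fun s => B s / p) (fun s => (p : ℝ) * θ s)‖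
      ≤ (1 / (p : ℝ)) * ‖TF ψ F B θ
          - TF ψ (fun i m => F i ((p : ℤ) * m)) (fun s => B s / p) (fun s => (p : ℝ) * θ s)‖
        + 4 * k * ((1 / (p : ℝ)) * (1 / (p : ℝ))) := by
    intro p hp
    have hpr := (hP p hp).1
    have hple : p ≤ P.sup id := Finset.le_sup (f := id) hp
    have a1 := TF_mult2 ψ p hpr (fun i => by
        obtain ⟨s, hs⟩ : ∃ s, ψ i s ≠ 0 := by
          by_contra hcon
          push Not at hcon
          exact hψ i (funext hcon)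
        refine ⟨s, fun hd => hs ?_⟩
        apply Int.eq_zero_of_abs_lt_dvd hd
        have h3 := hP0' i s
        have h4 := (hP p hp).2
        rw [Int.abs_eq_natAbs]
        exact_mod_cast (by omega : (ψ i s).natAbs < p)) (fun s => B s / p)
      (fun s => by
        show p ≤ B s / p
        rw [Nat.le_div_iff_mul_le hpr.pos]
        have h3 := hB s
        have h4 : p * p ≤ (P.sup id) ^ 2 := by
          rw [pow_two]
          exact Nat.mul_le_mul hple hple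
        omega) F G hF hG (fun i => g i p) (fun i => hg i p hp) (fun i m => hm i p hp m)
      (fun s => (p : ℝ) * θ s)
    rw [← hk] at a1
    set x1 := TF ψ F B θ
    set x2 := TF ψ (fun i m => F i ((p : ℤ) * m)) (fun s => B s / p) (fun s => (p : ℝ) * θ s)
    set x3 := (∏ i, g i p) * TF ψ G (fun s => B s / p) (fun s => (p : ℝ) * θ s)
    have e : x1 - x3 = (x1 - x2) + (x2 - x3) := by ring
    have e1 : ‖x1 - x3‖ ≤ ‖x1 - x2‖ + 4 * k / p := by
      rw [e]
      exact (norm_add_le _ _).trans (by linarith)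
    have hp' : 0 ≤ 1 / (p : ℝ) := by positivity
    calc (1 / (p : ℝ)) * ‖x1 - x3‖ ≤ (1 / (p : ℝ)) * (‖x1 - x2‖ + 4 * k / p) :=
          mul_le_mul_of_nonneg_left e1 hp'
      _ = _ := by ring
  refine (Finset.sum_le_sum h2).trans ?_
  rw [Finset.sum_add_distrib, ← Finset.mul_sum]
  have h3 := sum_inv_sq_le P fun p hp => (hP p hp).1
  have h4 : 4 * (k : ℝ) * ∑ p ∈ P, (1 / (p : ℝ)) * (1 / (p : ℝ)) ≤ 4 * k := by
    have : 0 ≤ 4 * (k : ℝ) := by positivity
    nlinarith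
  linarith

theorem minorG2 (ψ : ι → σ → ℤ) (hψ : ∀ i, ψ i ≠ 0) (ε : ℝ) (hε : 0 < ε) (P00 : ℕ) :
    ∃ T Q K : ℕ, ∀ B : σ → ℕ, (∀ s, K ≤ B s) → ∀ (F G : ι → ℤ → ℂ) (g : ι → ℕ → ℂ),
      MG F g G P00 T → ∀ θ : σ → ℝ, ε < ‖TF ψ F B θ‖ →
      ∃ q : ℕ, 1 ≤ q ∧ q ≤ Q ∧ ∀ s, |(q : ℝ) * θ s - round ((q : ℝ) * θ s)| ≤ Q / B s := by
  classical
  set n := Fintype.card σ with hn
  -- parameters
  obtain ⟨δ, hδ0, hδ1, hδn⟩ : ∃ δ : ℝ, 0 < δ ∧ δ ≤ 1 ∧ 4 * (n : ℝ) * δ ≤ ε / 8 := by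
    refine ⟨min 1 (ε / (32 * (n + 1))), lt_min one_pos (by positivity), min_le_left _ _, ?_⟩
    have h1 : min 1 (ε / (32 * ((n : ℝ) + 1))) ≤ ε / (32 * (n + 1)) := min_le_right _ _
    calc 4 * (n : ℝ) * min 1 (ε / (32 * (n + 1))) ≤ 4 * n * (ε / (32 * (n + 1))) :=
          mul_le_mul_of_nonneg_left h1 (by positivity)
      _ ≤ 4 * (n + 1) * (ε / (32 * (n + 1))) := by
          refine mul_le_mul_of_nonneg_right (by linarith) (by positivity)
      _ = ε / 8 := by field_simp; norm_num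
  obtain ⟨M, hM⟩ := exists_nat_gt (16 / (3 * ε ^ 2))
  obtain ⟨C, P1, hC⟩ := dil_mult2 ψ hψ (ε / 16) (by positivity)
  set P0 : ℕ := max P1 P00 with hP0def
  obtain ⟨J0', hJ0'⟩ := cell_mass δ hδ0 hδ1
  have hpow : Tendsto (fun j : ℕ => (1 + δ) ^ j) atTop atTop :=
    tendsto_pow_atTop_atTop_of_one_lt (by linarith)
  obtain ⟨J0'', hJ0''⟩ := eventually_atTop.mp (hpow.eventually_ge_atTop (P0 : ℝ))
  set J0 := max J0' J0'' with hJ0def
  have hJ0 : ∀ j, J0 ≤ j → 1 / (4 * ((j : ℝ) + 1)) ≤ ∑ p ∈ cell δ j, 1 / (p : ℝ) :=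
    fun j hj => hJ0' j ((le_max_left _ _).trans hj)
  set C' : ℝ := M * ((1 + δ) / δ) with hC'
  obtain ⟨J1, hJ01, hJ1⟩ : ∃ b, J0 ≤ b ∧ 4 * ((4 / 3) * (C' + 4 * C / ε))
      < ∑ j ∈ Finset.Ico J0 b, 1 / ((j : ℝ) + 1) := by
    have hdiv := Real.tendsto_sum_range_one_div_nat_succ_atTop
    obtain ⟨b, hb1, hb2⟩ := ((hdiv.eventually_gt_atTop
      (4 * ((4 / 3) * (C' + 4 * C / ε)) + ∑ j ∈ Finset.range J0, 1 / ((j : ℝ) + 1))).and
      (eventually_ge_atTop J0)).exists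
    refine ⟨b, hb2, ?_⟩
    rw [← Finset.sum_range_add_sum_Ico _ hb2] at hb1
    linarith
  set P : Finset ℕ := (Finset.Ico J0 J1).biUnion (cell δ) with hP
  have hPprime : ∀ p ∈ P, p.Prime := by
    intro p hp
    obtain ⟨j, _, hpj⟩ := Finset.mem_biUnion.mp hp
    exact mem_cell_prime hpj
  have hPP0 : ∀ p ∈ P, P0 ≤ p := by
    intro p hp
    obtain ⟨j, hj, hpj⟩ := Finset.mem_biUnion.mp hp
    have h1 := hJ0'' j ((le_max_right _ _).trans (Finset.mem_Ico.mp hj).1)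
    have h2 := mem_cell_lower hδ0 hpj
    exact_mod_cast (h1.trans h2.le)
  obtain ⟨K0, hK00, hK0⟩ := hC P fun p hp => ⟨hPprime p hp, (le_max_left _ _).trans (hPP0 p hp)⟩
  set T : ℕ := ⌈(1 + δ) ^ (J1 + 1)⌉₊ with hT
  have hPT : ∀ p ∈ P, p ≤ T := by
    intro p hp
    obtain ⟨j, hj, hpj⟩ := Finset.mem_biUnion.mp hp
    rw [Finset.mem_Ico] at hj
    have h1 := mem_cell_upper hδ0 hpj
    have h2 : (1 + δ) ^ (j + 1) ≤ (1 + δ) ^ (J1 + 1) := pow_le_pow_right₀ (by linarith) (by omega)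
    have h3 : (p : ℝ) ≤ T := h1.trans (h2.trans (Nat.le_ceil _))
    exact_mod_cast h3
  obtain ⟨K1, hK1⟩ := exists_nat_ge (32 * (n : ℝ) * T / ε)
  rw [div_le_iff₀ hε] at hK1
  set ρ : ℝ := ε ^ 2 / 16 with hρ
  have hρ0 : 0 < ρ := by positivity
  obtain ⟨Q1, hQ1⟩ := exists_nat_ge ((T : ℝ) / ρ)
  refine ⟨T, T + Q1, K0 + K1 + 2 * T + 1, fun B hB F G g hF θ hθ => ?_⟩
  have hBpos : ∀ s, 0 < B s := fun s => by have := hB s; omega
  have hB2T : ∀ s, 2 * T ≤ B s := fun s => by have := hB s; omega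
  have hBκ : ∀ s, 4 * (n : ℝ) * T ≤ ε / 8 * B s := by
    intro s
    have h1 : (K1 : ℝ) ≤ B s := by
      have := hB s
      exact_mod_cast (by omega : K1 ≤ B s)
    nlinarith
  have key := hK0 B (fun s => by have := hB s; omega) F G g θ hF.1 hF.2.1
    (fun i p hp => hF.2.2.1 i p (hPprime p hp) ((le_max_right _ _).trans (hPP0 p hp)) (hPT p hp))
    (fun i p hp m => hF.2.2.2 i p (hPprime p hp) ((le_max_right _ _).trans (hPP0 p hp)) (hPT p hp) m)
  set SP : ℝ := ∑ p ∈ P, 1 / (p : ℝ) with hSP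
  -- good primes
  set Gd := P.filter (fun p : ℕ => ‖TF ψ F B θ
    - (∏ i, g i p) * TF ψ G (fun s => B s / p) (fun s => (p : ℝ) * θ s)‖ ≤ ε / 4) with hG
  have hbadmass : ∑ p ∈ P.filter (fun p : ℕ => ¬ ‖TF ψ F B θ
      - (∏ i, g i p) * TF ψ G (fun s => B s / p) (fun s => (p : ℝ) * θ s)‖ ≤ ε / 4),
      1 / (p : ℝ) ≤ 4 * C / ε + SP / 4 := by
    have h1 : ∑ p ∈ P.filter (fun p : ℕ => ¬ ‖TF ψ F B θ
      - (∏ i, g i p) * TF ψ G (fun s => B s / p) (fun s => (p : ℝ) * θ s)‖ ≤ ε / 4),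
      (1 / (p : ℝ)) * (ε / 4) ≤ C + ε / 16 * SP := by
      refine le_trans ?_ key
      refine le_trans (Finset.sum_le_sum (g := fun p : ℕ => (1 / (p : ℝ)) * ‖TF ψ F B θ
        - (∏ i, g i p) * TF ψ G (fun s => B s / p) (fun s => (p : ℝ) * θ s)‖) ?_) ?_
      · intro p hp
        have h2 := (Finset.mem_filter.mp hp).2
        push Not at h2
        exact mul_le_mul_of_nonneg_left h2.le (by positivity)
      · exact Finset.sum_le_sum_of_subset_of_nonneg (Finset.filter_subset _ _)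
          fun p _ _ => by positivity
    rw [← Finset.sum_mul] at h1
    have h2 : ∑ p ∈ P.filter (fun p : ℕ => ¬ ‖TF ψ F B θ
      - (∏ i, g i p) * TF ψ G (fun s => B s / p) (fun s => (p : ℝ) * θ s)‖ ≤ ε / 4),
      1 / (p : ℝ) ≤ (C + ε / 16 * SP) / (ε / 4) := by
      rw [le_div_iff₀ (by positivity)]
      exact h1
    refine h2.trans (le_of_eq ?_)
    field_simp
    ring
  have hsplit : SP = ∑ p ∈ Gd, 1 / (p : ℝ) + ∑ p ∈ P.filter (fun p : ℕ => ¬ ‖TF ψ F B θ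
      - (∏ i, g i p) * TF ψ G (fun s => B s / p) (fun s => (p : ℝ) * θ s)‖ ≤ ε / 4),
      1 / (p : ℝ) := by
    rw [hSP, hG]
    exact (Finset.sum_filter_add_sum_filter_not _ _ _).symm
  have hSPlow : (∑ j ∈ Finset.Ico J0 J1, 1 / ((j : ℝ) + 1)) / 4 ≤ SP := by
    rw [hSP, hP, Finset.sum_biUnion fun i _ j _ hij => cell_disjoint hδ0 hij, Finset.sum_div]
    refine Finset.sum_le_sum fun j hj => ?_
    have h1 := hJ0 j (Finset.mem_Ico.mp hj).1
    refine le_trans (le_of_eq ?_) h1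
    rw [div_div]
    ring_nf
  -- a cell with many good primes
  obtain ⟨j, hj, hjM⟩ : ∃ j ∈ Finset.Ico J0 J1, M ≤ (Gd.filter (fun p => p ∈ cell δ j)).card := by
    by_contra hcon
    push Not at hcon
    have h1 : ∑ p ∈ Gd, 1 / (p : ℝ) ≤ C' := by
      have h2 : ∑ p ∈ Gd, 1 / (p : ℝ)
          ≤ ∑ j ∈ Finset.Ico J0 J1, ∑ p ∈ Gd.filter (fun p => p ∈ cell δ j), 1 / (p : ℝ) := by
        have h3 : Gd ⊆ (Finset.Ico J0 J1).biUnion (fun j => Gd.filter (fun p => p ∈ cell δ j)) := by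
          intro p hp
          obtain ⟨j, hj, hpj⟩ := Finset.mem_biUnion.mp (Finset.mem_filter.mp hp).1
          exact Finset.mem_biUnion.mpr ⟨j, hj, Finset.mem_filter.mpr ⟨hp, hpj⟩⟩
        calc _ ≤ ∑ p ∈ (Finset.Ico J0 J1).biUnion (fun j => Gd.filter (fun p => p ∈ cell δ j)),
              1 / (p : ℝ) := Finset.sum_le_sum_of_subset_of_nonneg h3 fun _ _ _ => by positivity
          _ = _ := by
              refine Finset.sum_biUnion fun i _ j _ hij => ?_
              rw [Function.onFun, Finset.disjoint_left]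
              intro p hpi hpj
              exact (Finset.disjoint_left.mp (cell_disjoint hδ0 hij))
                (Finset.mem_filter.mp hpi).2 (Finset.mem_filter.mp hpj).2
      have h3 : ∀ j ∈ Finset.Ico J0 J1, ∑ p ∈ Gd.filter (fun p => p ∈ cell δ j), 1 / (p : ℝ)
          ≤ M * (1 / (1 + δ)) ^ j := by
        intro j hj
        have h4 := hcon j hj
        calc _ ≤ ∑ _p ∈ Gd.filter (fun p => p ∈ cell δ j), (1 / (1 + δ)) ^ j := by
              refine Finset.sum_le_sum fun p hp => ?_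
              have h5 := mem_cell_lower hδ0 (Finset.mem_filter.mp hp).2
              rw [one_div_pow]
              exact one_div_le_one_div_of_le (by positivity) h5.le
          _ = ((Gd.filter (fun p => p ∈ cell δ j)).card : ℝ) * (1 / (1 + δ)) ^ j := by
              rw [Finset.sum_const, nsmul_eq_mul]
          _ ≤ _ := by
              refine mul_le_mul_of_nonneg_right ?_ (by positivity)
              exact_mod_cast h4.le
      have h4 : ∑ j ∈ Finset.Ico J0 J1, (M : ℝ) * (1 / (1 + δ)) ^ j ≤ C' := by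
        rw [← Finset.mul_sum, hC']
        refine mul_le_mul_of_nonneg_left ?_ (Nat.cast_nonneg _)
        have h5 : ∑ j ∈ Finset.Ico J0 J1, (1 / (1 + δ)) ^ j
            ≤ ∑ j ∈ Finset.range J1, (1 / (1 + δ)) ^ j := by
          refine Finset.sum_le_sum_of_subset_of_nonneg ?_ fun _ _ _ => by positivity
          intro j hj
          rw [Finset.mem_Ico] at hj
          exact Finset.mem_range.mpr hj.2
        refine h5.trans ?_
        have h6 : (1 / (1 + δ) : ℝ) < 1 := by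
          rw [div_lt_one (by linarith)]; linarith
        have h7 : 1 / (1 + δ) ≠ (1 : ℝ) := h6.ne
        rw [geom_sum_eq h7]
        have h8 : ((1 / (1 + δ)) ^ J1 - 1) / (1 / (1 + δ) - 1)
            = (1 - (1 / (1 + δ)) ^ J1) * ((1 + δ) / δ) := by
          have hx1 : (1 / (1 + δ) - 1 : ℝ) = -(δ / (1 + δ)) := by
            field_simp
            ring
          rw [hx1]
          generalize (1 / (1 + δ) : ℝ) ^ J1 = z
          field_simp
          ring
        rw [h8]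
        have h9 : 0 ≤ (1 / (1 + δ) : ℝ) ^ J1 := by positivity
        have h10 : 0 ≤ (1 + δ) / δ := by positivity
        nlinarith
      exact h2.trans ((Finset.sum_le_sum h3).trans h4)
    have h2 : SP ≤ C' + (4 * C / ε + SP / 4) := by
      linarith [hsplit, h1, hbadmass]
    linarith
  -- the large sieve
  set S := Gd.filter (fun p => p ∈ cell δ j) with hS
  have hMpos : 0 < M := by
    have h1 : (0 : ℝ) < M := lt_trans (by positivity) hM
    exact_mod_cast h1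
  have hSne : S.Nonempty := Finset.card_pos.mp (by omega)
  set p0 := S.min' hSne with hp0
  have hp0S : p0 ∈ S := Finset.min'_mem S hSne
  have hSmem : ∀ p ∈ S, p ∈ P ∧ p ∈ cell δ j ∧ ‖TF ψ F B θ
    - (∏ i, g i p) * TF ψ G (fun s => B s / p) (fun s => (p : ℝ) * θ s)‖ ≤ ε / 4 := by
    intro p hp
    rw [hS, Finset.mem_filter, hG, Finset.mem_filter] at hp
    exact ⟨hp.1.1, hp.2, hp.1.2⟩
  have hp0pos : 0 < p0 := (hPprime p0 (hSmem p0 hp0S).1).pos
  have hp0T : p0 ≤ T := hPT p0 (hSmem p0 hp0S).1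
  have hB'pos : ∀ s, 0 < B s / p0 := fun s => Nat.div_pos (by have := hB2T s; omega) hp0pos
  have hbig : ∀ p ∈ S, ε / 2 ≤ ‖EE (fun s => B s / p0)
      (fun y => eR (∑ s, (p : ℝ) * θ s * y s) * ∏ i, G i (LL ψ i y))‖ := by
    intro p hp
    obtain ⟨hpP, hpc, hpg⟩ := hSmem p hp
    have hle : p0 ≤ p := Finset.min'_le S p hp
    have h1 := EE_div_slow B p0 p T hp0pos hle (hPT p hpP) (ε / 8) (by positivity) hB2T
      (by rw [← hn]; exact hBκ) hBpos
      (fun y => eR (∑ s, (p : ℝ) * θ s * y s) * ∏ i, G i (LL ψ i y))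
      (fun y => TF_norm ψ G hF.2.1 (fun s => (p : ℝ) * θ s) y)
    rw [← hn] at h1
    have hp0r : (0 : ℝ) < p0 := by exact_mod_cast hp0pos
    have h2 : ((p : ℝ) - p0) / p0 ≤ δ := by
      rw [div_le_iff₀ hp0r]
      have h3 := mem_cell_upper hδ0 hpc
      have h4 := mem_cell_lower hδ0 (hSmem p0 hp0S).2.1
      rw [pow_succ] at h3
      nlinarith
    have h3 : 4 * (n : ℝ) * (((p : ℝ) - p0) / p0) ≤ ε / 8 :=
      (mul_le_mul_of_nonneg_left h2 (by positivity)).trans hδn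
    have h4 : ‖TF ψ F B θ‖ ≤ ‖TF ψ F B θ - (∏ i, g i p)
        * TF ψ G (fun s => B s / p) (fun s => (p : ℝ) * θ s)‖
        + ‖TF ψ G (fun s => B s / p) (fun s => (p : ℝ) * θ s)‖ := by
      have h5 : ‖(∏ i, g i p)
          * TF ψ G (fun s => B s / p) (fun s => (p : ℝ) * θ s)‖
          ≤ ‖TF ψ G (fun s => B s / p) (fun s => (p : ℝ) * θ s)‖ := by
        rw [norm_mul, norm_prod]
        refine mul_le_of_le_one_left (norm_nonneg _)
          (Finset.prod_le_one (fun _ _ => norm_nonneg _) fun i _ => ?_)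
        exact hF.2.2.1 i p (hPprime p hpP) ((le_max_right _ _).trans (hPP0 p hpP)) (hPT p hpP)
      have := norm_add_le (TF ψ F B θ - (∏ i, g i p)
        * TF ψ G (fun s => B s / p) (fun s => (p : ℝ) * θ s))
        ((∏ i, g i p) * TF ψ G (fun s => B s / p) (fun s => (p : ℝ) * θ s))
      rw [sub_add_cancel] at this
      linarith
    have h5 : ‖TF ψ G (fun s => B s / p) (fun s => (p : ℝ) * θ s)‖
        ≤ ‖EE (fun s => B s / p0)
          (fun y => eR (∑ s, (p : ℝ) * θ s * y s) * ∏ i, G i (LL ψ i y))‖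
        + ‖EE (fun s => B s / p0)
          (fun y => eR (∑ s, (p : ℝ) * θ s * y s) * ∏ i, G i (LL ψ i y))
          - EE (fun s => B s / p)
          (fun y => eR (∑ s, (p : ℝ) * θ s * y s) * ∏ i, G i (LL ψ i y))‖ := by
      have := norm_sub_le (EE (fun s => B s / p0)
          (fun y => eR (∑ s, (p : ℝ) * θ s * y s) * ∏ i, G i (LL ψ i y)))
          (EE (fun s => B s / p0)
          (fun y => eR (∑ s, (p : ℝ) * θ s * y s) * ∏ i, G i (LL ψ i y))
          - EE (fun s => B s / p)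
          (fun y => eR (∑ s, (p : ℝ) * θ s * y s) * ∏ i, G i (LL ψ i y)))
      rw [sub_sub_cancel] at this
      exact this
    linarith
  obtain ⟨p, hp, p', hp', hne, hlarge⟩ : ∃ p ∈ S, ∃ p' ∈ S, p ≠ p' ∧
      ρ < ‖EE (fun s => B s / p0) (fun y => eR (∑ s, ((p : ℝ) - p') * θ s * y s))‖ := by
    by_contra hcon
    push Not at hcon
    have h1 := bessel (fun s => B s / p0) hB'pos (fun y => ∏ i, G i (LL ψ i y))
      (fun y => by
        rw [norm_prod]
        exact Finset.prod_le_one (fun _ _ => norm_nonneg _) fun i _ => hF.2.1 i _)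
      S θ (ε / 2) ρ hbig (by positivity) (fun p hp p' hp' hne => hcon p hp p' hp' hne) hρ0.le
    have hm : (M : ℝ) ≤ (S.card : ℝ) := by exact_mod_cast hjM
    have hm0 : (0 : ℝ) < (S.card : ℝ) := lt_of_lt_of_le (by exact_mod_cast hMpos) hm
    rw [div_lt_iff₀ (by positivity)] at hM
    rw [hρ] at h1
    have h2 : (S.card : ℝ) * (3 * ε ^ 2 / 16) ≤ 1 := by
      have h3 : (S.card : ℝ) * ((S.card : ℝ) * (3 * ε ^ 2 / 16)) ≤ (S.card : ℝ) * 1 := by
        nlinarith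
      exact le_of_mul_le_mul_left h3 hm0
    have h3 : (M : ℝ) * (3 * ε ^ 2) ≤ (S.card : ℝ) * (3 * ε ^ 2) :=
      mul_le_mul_of_nonneg_right hm (by positivity)
    linarith
  -- the denominator
  have hround := fun s => EE_char_large (fun s => B s / p0) hB'pos
    (fun s => ((p : ℝ) - p') * θ s) ρ hρ0 hlarge s
  have hpT := hPT p (hSmem p hp).1
  have hp'T := hPT p' (hSmem p' hp').1
  refine ⟨((p : ℤ) - p').natAbs, ?_, ?_, fun s => ?_⟩
  · omega
  · omega
  · have h1 : |(((((p : ℤ) - p').natAbs : ℕ)) : ℝ) * θ s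
        - round ((((((p : ℤ) - p').natAbs : ℕ)) : ℝ) * θ s)|
        ≤ |((p : ℝ) - p') * θ s - round (((p : ℝ) - p') * θ s)| := by
      rcases le_total p' p with hle | hle
      · have e1 : (((((p : ℤ) - p').natAbs : ℕ)) : ℝ) = (p : ℝ) - p' := by
          have : ((p : ℤ) - p').natAbs = p - p' := by omega
          rw [this, Nat.cast_sub hle]
        rw [e1]
      · have e1 : (((((p : ℤ) - p').natAbs : ℕ)) : ℝ) = -((p : ℝ) - p') := by
          have : ((p : ℤ) - p').natAbs = p' - p := by omega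
          rw [this, Nat.cast_sub hle]
          ring
        rw [e1]
        have h2 := round_le (-((p : ℝ) - p') * θ s) (-(round (((p : ℝ) - p') * θ s)))
        refine h2.trans (le_of_eq ?_)
        push_cast
        rw [← abs_neg]
        congr 1
        ring
    refine h1.trans ((hround s).trans ?_)
    have hBs : (0 : ℝ) < B s := by exact_mod_cast hBpos s
    have b := nat_div_bounds (B s) p0 hp0pos
    have hp0r : (0 : ℝ) < p0 := by exact_mod_cast hp0pos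
    have hp0Tr : (p0 : ℝ) ≤ T := by exact_mod_cast hp0T
    have h2T : 2 * (T : ℝ) ≤ B s := by exact_mod_cast hB2T s
    have hdpos : (0 : ℝ) < ((B s / p0 : ℕ) : ℝ) := by exact_mod_cast hB'pos s
    have h3 : (B s : ℝ) / 2 ≤ p0 * ((B s / p0 : ℕ) : ℝ) := by linarith [b.2]
    have h4 : 1 / (2 * ρ * ((B s / p0 : ℕ) : ℝ)) ≤ ((T : ℝ) / ρ) / B s := by
      rw [div_div, div_le_div_iff₀ (by positivity) (by positivity)]
      have h5 : (B s : ℝ) ≤ 2 * (T * ((B s / p0 : ℕ) : ℝ)) := by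
        have := mul_le_mul_of_nonneg_right hp0Tr hdpos.le
        linarith
      nlinarith
    refine h4.trans ?_
    apply div_le_div_of_nonneg_right _ hBs.le
    push_cast
    have : (0 : ℝ) ≤ T := Nat.cast_nonneg _
    linarith

end

end Pool.Agent.N781.OM
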