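import Mathlib
import Pool.Agent.N781.S.Base
import Pool.Agent.N781.OM.Minor

/-! The base of the descent: sequences along an ultrafilter. -/

namespace Pool.Agent.N781.OM

open Finset Pool.Agent.N675 Pool.Agent.N781.FV Pool.Agent.N781.A Pool.Agent.N781.S Filter Topology

/-- the functions `wf M D c (q ·)` lie in a finite family -/
def S_FAM2 : Prop :=
  ∀ (ι : Type) [Fintype ι] [DecidableEq ι] (a b : ι → ℤ), (∀ i, a i ≠ 0) →
    ∀ (M : ℕ) (τ : ℝ), 0 < M → 0 < τ → ∃ κ : ℝ, 0 < κ ∧ κ ≤ 1 / 2 ∧ ∃ N P0 : ℕ,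
    ∀ P : ℕ, P0 ≤ P → ∃ K₀ : ℕ, ∀ D x : ℕ, K₀ ≤ D → K₀ ≤ x →
    ∀ (F G : ι → ℤ → ℂ) (g : ι → ℕ → ℂ) (P00 T : ℕ), MG F g G P00 T →
      ∃ 𝓕 : Fin N → ℤ → ℂ, (∀ n m, ‖𝓕 n m‖ ≤ 1) ∧
        ∀ q : ℕ, q.Prime → P ≤ q → (q : ℝ) ≤ (1 + κ) * (P + 1) → P00 ≤ q → q ≤ T →
          avr (D / q) (fun d =>
            ‖cc a b F x ((q : ℤ) * d) - cc a b (fun i m => F i ((q : ℤ) * m)) (x / q) d‖ ^ 2) ≤ τ →
          ∃ n : Fin N, avr (D / P) (fun d => ‖wf M D (cc a b F x) ((q : ℤ) * d) - 𝓕 n d‖ ^ 2)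
            ≤ 4 * τ

/-- sequences of correlations -/
structure Sg (ι : Type) [Fintype ι] (a b : ι → ℤ) (U : Ultrafilter ℕ) where
  D : ℕ → ℕ
  x : ℕ → ℕ
  F : ℕ → ι → ℤ → ℂ
  g : ℕ → ι → ℕ → ℂ
  G : ℕ → ι → ℤ → ℂ
  hD : ∀ N, ∀ᶠ j in (U : Filter ℕ), N ≤ D j
  hx : ∀ N, ∀ᶠ j in (U : Filter ℕ), N ≤ x j
  hF : ∀ j T, MG (F j) (g j) (G j) 0 T

section

variable {ι : Type} [Fintype ι] {a b : ι → ℤ} {U : Ultrafilter ℕ} (S : Sg ι a b U)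

/-- the correlations -/
noncomputable def Sg.c (j : ℕ) : ℤ → ℂ := cc a b (S.F j) (S.x j)

/-- the unstructured part at level `i` -/
noncomputable def Sg.w (i j : ℕ) : ℤ → ℂ := wf i.factorial (S.D j) (S.c j)

lemma Sg.c_norm (j : ℕ) (m : ℤ) : ‖S.c j m‖ ≤ 1 := cc_norm a b _ (S.hF j 0).1 _ m

lemma Sg.w_norm (hCE : S_CE) (i j : ℕ) (hD : 0 < S.D j) (m : ℤ) : ‖S.w i j m‖ ≤ 1 :=
  (hCE i.factorial (S.D j) (S.c j) (Nat.factorial_pos i) hD (S.c_norm j)).2.1 m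

lemma Sg.cauchy (hCE : S_CE) (τ : ℝ) (hτ : 0 < τ) : ∃ i₁ : ℕ, ∀ i, i₁ ≤ i →
    ∀ᶠ j in (U : Filter ℕ), avr (S.D j) (fun d => ‖S.w i j d - S.w i₁ j d‖ ^ 2) ≤ τ := by
  by_contra hcon
  push Not at hcon
  have key : ∀ n : ℕ, ∃ i : ℕ, ∀ᶠ j in (U : Filter ℕ),
      4 * τ * n ≤ avr (S.D j) (fun d => ‖St i.factorial (S.D j) (S.c j) d‖ ^ 2) := by
    intro n
    induction n with
    | zero =>
      refine ⟨0, Eventually.of_forall fun j => ?_⟩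
      rw [Nat.cast_zero, mul_zero]
      exact avr_nonneg _ _ fun _ _ _ => by positivity
    | succ n ih =>
      obtain ⟨i₁, hi₁⟩ := ih
      obtain ⟨i, hi, hni⟩ := hcon i₁
      refine ⟨i, ?_⟩
      filter_upwards [hi₁, hni, S.hD 1] with j h2 h3 h4
      have h5 := ((hCE i₁.factorial (S.D j) (S.c j) (Nat.factorial_pos _) (by omega)
        (S.c_norm j)).2.2.2.2 i.factorial (Nat.factorial_pos _) (Nat.factorial_dvd_factorial hi)).1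
      unfold Sg.w at h3
      rw [h5] at h3
      push_cast
      linarith
  obtain ⟨n, hn⟩ := exists_nat_gt (1 / (4 * τ))
  obtain ⟨i, hi⟩ := key n
  obtain ⟨j, hj, hj1⟩ := (hi.and (S.hD 1)).exists
  have h1 : avr (S.D j) (fun d => ‖St i.factorial (S.D j) (S.c j) d‖ ^ 2) ≤ 1 := by
    refine (avr_le _ _ (fun _ => 1) fun d _ _ => ?_).trans (avr_const_le _ 1 zero_le_one)
    exact pow_le_one₀ (norm_nonneg _)
      ((hCE i.factorial (S.D j) (S.c j) (Nat.factorial_pos i) (by omega) (S.c_norm j)).1 d)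
  rw [div_lt_iff₀ (by positivity)] at hn
  linarith

/-- The unstructured parts have no large Fourier coefficients in the limit. -/
lemma Sg.fin (hCE : S_CE) (hMaj : S_STMAJ) (hSm : S_WSMALL) (ha : ∀ i, a i ≠ 0) [DecidableEq ι]
    (δ' : ℝ) (hδ : 0 < δ') (hδ1 : δ' ≤ 1) : ∃ i₀ : ℕ, ∀ i, i₀ ≤ i →
      ¬ ∀ᶠ j in (U : Filter ℕ), ∃ (D' : ℕ) (θ : ℝ), δ' * S.D j ≤ D' ∧
        δ' ≤ ‖av D' fun d => S.w i j d * eR (d * θ)‖ := by
  obtain ⟨i₁, hi₁⟩ := S.cauchy hCE ((δ' * (δ' / 2)) ^ 2) (by positivity)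
  obtain ⟨T, Q₁, K₁, hmin⟩ := minorG2 (fm a b) (fun i h => ha i (by
    have := congrFun h true
    simpa [fm] using this)) (δ' / 4) (by positivity) 0
  obtain ⟨Q₂, hQ₂⟩ := hMaj i₁.factorial (δ' / 2) (Nat.factorial_pos _) (by positivity)
  obtain ⟨Q₃, hQ₃⟩ := exists_nat_ge (Q₁ / δ' + Q₁ + Q₂)
  obtain ⟨i₀, hi₀⟩ := hSm Q₃ δ' hδ
  refine ⟨max i₀ i₁, fun i hi hcon => ?_⟩
  obtain ⟨K₃, hK₃⟩ := exists_nat_ge (K₁ / δ' + 1)
  obtain ⟨j, ⟨D', θ, h1, h2⟩, h3, h4, h5⟩ := (hcon.and ((hi₁ i (le_trans (le_max_right _ _) hi)).and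
    ((S.hD (K₃ + 1)).and (S.hx (K₁ + 1))))).exists
  have hD0 : 0 < S.D j := by omega
  have hDR : (0 : ℝ) < S.D j := by exact_mod_cast hD0
  obtain ⟨D'', hDD, h6, h7⟩ := trunc (S.D j) D' (S.w i j) (fun d hd => by
    unfold Sg.w wf
    rw [if_neg (by omega)]) θ δ' hδ1 hD0 h1 h2
  have hK1D : K₁ ≤ D'' := by
    have e1 : (K₃ : ℝ) ≤ S.D j := by exact_mod_cast (by omega : K₃ ≤ S.D j)
    have e2 : K₁ / δ' ≤ S.D j := by linarith
    rw [div_le_iff₀ hδ] at e2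
    have e3 : (K₁ : ℝ) ≤ D'' := by linarith
    exact_mod_cast e3
  have h8 := av_diff (S.D j) D'' (S.w i j) (S.w i₁ j) θ δ' (δ' / 2) hδ hD0 hDD h6 (by positivity) h3
  have h9 : δ' / 2 ≤ ‖av D'' fun d => S.w i₁ j d * eR (d * θ)‖ := by
    have := norm_sub_norm_le (av D'' fun d => S.w i j d * eR (d * θ))
      (av D'' fun d => S.w i₁ j d * eR (d * θ))
    linarith
  have hmaj : ∃ q : ℕ, 1 ≤ q ∧ q ≤ Q₃ ∧ ∃ n : ℤ, |(q : ℝ) * θ - n| ≤ (Q₃ : ℝ) / S.D j := by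
    have hQ₃1 : Q₁ ≤ Q₃ ∧ Q₂ ≤ Q₃ ∧ (Q₁ : ℝ) / δ' ≤ Q₃ ∧ (Q₂ : ℝ) ≤ Q₃ := by
      have e1 : (0 : ℝ) ≤ Q₁ / δ' := by positivity
      have e2 : (0 : ℝ) ≤ Q₁ := Nat.cast_nonneg _
      have e3 : (0 : ℝ) ≤ Q₂ := Nat.cast_nonneg _
      have e4 : (Q₁ : ℝ) ≤ Q₃ := by linarith
      have e5 : (Q₂ : ℝ) ≤ Q₃ := by linarith
      exact ⟨by exact_mod_cast e4, by exact_mod_cast e5, by linarith, e5⟩
    unfold Sg.w at h9
    rw [av_wf _ _ _ _ _ hDD, norm_div] at h9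
    have e0 : ‖(2 : ℂ)‖ = 2 := by norm_num
    rw [e0] at h9
    have h10 := norm_sub_le (av D'' fun d => S.c j d * eR (d * θ))
      (av D'' fun d => St i₁.factorial (S.D j) (S.c j) d * eR (d * θ))
    by_cases h11 : δ' / 2 ≤ ‖av D'' fun d => St i₁.factorial (S.D j) (S.c j) d * eR (d * θ)‖
    · obtain ⟨q, hq1, hq2, n, hn⟩ := hQ₂ (S.D j) D'' θ (S.c j) (S.c_norm j) hD0 hDD
        (le_trans (mul_le_mul_of_nonneg_right (by linarith) hDR.le) h6) h11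
      refine ⟨q, hq1, by omega, n, hn.trans ?_⟩
      exact div_le_div_of_nonneg_right hQ₃1.2.2.2 hDR.le
    · push Not at h11
      have h12 : δ' / 4 < ‖av D'' fun d => S.c j d * eR (d * θ)‖ := by linarith
      unfold Sg.c at h12
      rw [av_eq_TF] at h12
      obtain ⟨q, hq1, hq2, hq3⟩ := hmin (fun t : Bool => if t then S.x j else D'')
        (fun t => by cases t <;> simp <;> omega) (S.F j) (S.G j) (S.g j) (S.hF j T)
        (fun t => if t then 0 else θ) h12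
      refine ⟨q, hq1, by omega, _, (hq3 false).trans ?_⟩
      simp only [Bool.false_eq_true, if_false]
      have hD''R : (0 : ℝ) < D'' := lt_of_lt_of_le (by positivity) h6
      rw [div_le_div_iff₀ hD''R hDR]
      calc (Q₁ : ℝ) * S.D j = Q₁ / δ' * (δ' * S.D j) := by field_simp
        _ ≤ Q₁ / δ' * D'' := by gcongr
        _ ≤ Q₃ * D'' := by gcongr; exact hQ₃1.2.2.1
  have h13 := hi₀ i.factorial (Nat.factorial_pos _)
    (Nat.factorial_dvd_factorial (le_trans (le_max_left _ _) hi)) (S.D j) D'' θ (S.c j)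
    (S.c_norm j) hD0 hDD h6 hmaj
  unfold Sg.w at h7
  linarith

/-- the unstructured parts have small box norms with `m` windows -/
def Sg.CL (m : ℕ) : Prop :=
  ∀ s : ℕ, 0 < s → ∀ δ : ℝ, 0 < δ → δ ≤ 1 → ∃ η₀ : ℝ, 0 < η₀ ∧ ∀ η : ℝ, 0 < η → η ≤ η₀ →
    ∃ i₀ : ℕ, ∀ i, i₀ ≤ i →
      ¬ ∀ᶠ j in (U : Filter ℕ), δ ≤ NN (S.D j) (List.replicate m (s, ⌊η * S.D j⌋₊)) (S.w i j)

lemma Sg.large (C : ℝ) : ∀ᶠ j in (U : Filter ℕ), C ≤ (S.D j : ℝ) := by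
  obtain ⟨N, hN⟩ := exists_nat_ge C
  filter_upwards [S.hD N] with j hj
  exact hN.trans (by exact_mod_cast hj)

lemma Sg.CL_one (hCE : S_CE) (hMaj : S_STMAJ) (hSm : S_WSMALL) (ha : ∀ i, a i ≠ 0)
    [DecidableEq ι] : S.CL 1 := by
  intro s hs δ hδ hδ1
  refine ⟨1, one_pos, fun η hη hη1 => ?_⟩
  have hs0 : (0 : ℝ) < s := by exact_mod_cast hs
  set δ' : ℝ := δ * η / (4 * (1 + s)) with hδ'
  have hδ'0 : 0 < δ' := by positivity
  have hδ'1 : δ' ≤ 1 := by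
    rw [hδ', div_le_one (by positivity)]
    nlinarith
  obtain ⟨i₀, hi₀⟩ := S.fin hCE hMaj hSm ha δ' hδ'0 hδ'1
  refine ⟨i₀, fun i hi hcon => hi₀ i hi ?_⟩
  filter_upwards [hcon, S.hD 1, S.large (2 / η)] with j h1 h2 h3
  rw [div_le_iff₀ hη] at h3
  exact one_four (S.D j) s hs (S.w i j) (S.w_norm hCE i j (by omega)) δ η hδ hη hη1
    (by linarith) h1

lemma Sg.CL_two (hP : S_PERM) (hMo : S_MONO) (hU : S_U2) (hCE : S_CE) (hMaj : S_STMAJ)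
    (hSm : S_WSMALL) (ha : ∀ i, a i ≠ 0) [DecidableEq ι] : S.CL 2 := by
  intro s hs δ hδ hδ1
  have hs0 : (0 : ℝ) < s := by exact_mod_cast hs
  have hs1 : (1 : ℝ) ≤ s := by exact_mod_cast hs
  refine ⟨δ / (64 * s), by positivity, fun η hη hη0 => ?_⟩
  have hη1 : η ≤ 1 := by
    refine hη0.trans ((div_le_one (by positivity)).mpr ?_)
    nlinarith
  set δ' : ℝ := (δ * η / 32) * (δ * η / 6400) / (4 * (1 + s)) with hδ'
  have hδ'0 : 0 < δ' := by positivity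
  have hδη : δ * η ≤ 1 := by nlinarith
  have hδ'1 : δ' ≤ 1 := by
    rw [hδ', div_le_one (by positivity)]
    have : 0 < δ * η := by positivity
    nlinarith
  obtain ⟨i₀, hi₀⟩ := S.fin hCE hMaj hSm ha δ' hδ'0 hδ'1
  refine ⟨i₀, fun i hi hcon => hi₀ i hi ?_⟩
  filter_upwards [hcon, S.hD 1, S.large (2 / η), S.large (2 / (δ * η / 6400))] with j h1 h2 h3 h4
  rw [div_le_iff₀ hη] at h3
  rw [div_le_iff₀ (by positivity)] at h4
  exact two_four hP hMo hU s hs δ η hδ hδ1 hη hη0 (S.D j) (by linarith) (by linarith)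
    (S.w i j) (S.w_norm hCE i j (by omega)) h1

end

end Pool.Agent.N781.OM
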