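import Mathlib
import Pool.Agent.N781.OM.Base
import Pool.Agent.N712.S.FAM

/-! The finite family and multiplicativity (from `Pool.Agent.N712.S.FAM` and
`Pool.Agent.N821.A.Mult`). -/

namespace Pool.Agent.N781.OM

open Finset Pool.Agent.N675 Pool.Agent.N781.FV Pool.Agent.N781.A Pool.Agent.N781.S
open Pool.Agent.N821.A Pool.Agent.N712.SF

section

variable {ι : Type} [Fintype ι] [DecidableEq ι]

lemma cc_mult2 {a b : ι → ℤ} {F G : ι → ℤ → ℂ} {g : ι → ℕ → ℂ} {P00 T q : ℕ}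
    (hM : MG F g G P00 T) (hq : q.Prime) (h1 : P00 ≤ q) (h2 : q ≤ T)
    (ha : ∀ i, ¬ (q : ℤ) ∣ a i) (X : ℕ) (hX : 0 < X) (m : ℤ) :
    ‖cc a b (fun i m => F i ((q : ℤ) * m)) X m - (∏ t, g t q) * cc a b G X m‖
      ≤ 2 * Fintype.card ι * (1 / q + 1 / X) := by
  classical
  have hX' : (0 : ℝ) < X := by exact_mod_cast hX
  obtain ⟨hF, hG1, hg, hmul⟩ := hM
  unfold cc av
  have e : (∑ n ∈ Icc (1 : ℤ) X, ∏ i, F i ((q : ℤ) * (a i * n + b i * m))) / (X : ℂ)
      - (∏ t, g t q) * ((∑ n ∈ Icc (1 : ℤ) X, ∏ i, G i (a i * n + b i * m)) / (X : ℂ))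
      = (∑ n ∈ Icc (1 : ℤ) X, (∏ i, F i ((q : ℤ) * (a i * n + b i * m))
          - (∏ t, g t q) * ∏ i, G i (a i * n + b i * m))) / (X : ℂ) := by
    rw [Finset.sum_sub_distrib, ← Finset.mul_sum]
    ring
  rw [e, norm_div, Complex.norm_natCast, div_le_iff₀ hX']
  have hG : ‖∏ t, g t q‖ ≤ 1 := by
    rw [norm_prod]
    exact Finset.prod_le_one (fun _ _ => norm_nonneg _) fun i _ => hg i q hq h1 h2
  have hterm : ∀ n : ℤ, ‖∏ i, F i ((q : ℤ) * (a i * n + b i * m))
      - (∏ t, g t q) * ∏ i, G i (a i * n + b i * m)‖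
      ≤ ∑ t, if (q : ℤ) ∣ a t * n + b t * m then (2 : ℝ) else 0 := by
    intro n
    by_cases hd : ∀ t, ¬ (q : ℤ) ∣ a t * n + b t * m
    · have h3 : ∏ i, F i ((q : ℤ) * (a i * n + b i * m))
          = (∏ t, g t q) * ∏ i, G i (a i * n + b i * m) := by
        rw [← Finset.prod_mul_distrib]
        exact Finset.prod_congr rfl fun i _ => hmul i q hq h1 h2 _ (hd i)
      rw [h3, sub_self, norm_zero]
      exact Finset.sum_nonneg fun t _ => by split_ifs <;> norm_num
    · push Not at hd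
      obtain ⟨t, ht⟩ := hd
      have h4 : ‖∏ i, F i ((q : ℤ) * (a i * n + b i * m))
          - (∏ t, g t q) * ∏ i, G i (a i * n + b i * m)‖ ≤ 2 := by
        refine (norm_sub_le _ _).trans ?_
        have h5 : ‖∏ i, F i ((q : ℤ) * (a i * n + b i * m))‖ ≤ 1 := by
          rw [norm_prod]
          exact Finset.prod_le_one (fun _ _ => norm_nonneg _) fun i _ => hF i _
        have h6 : ‖∏ i, G i (a i * n + b i * m)‖ ≤ 1 := by
          rw [norm_prod]
          exact Finset.prod_le_one (fun _ _ => norm_nonneg _) fun i _ => hG1 i _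
        have h7 : ‖(∏ t, g t q) * ∏ i, G i (a i * n + b i * m)‖ ≤ 1 := by
          rw [norm_mul]
          exact mul_le_one₀ hG (norm_nonneg _) h6
        linarith
      have h8 := Finset.single_le_sum
        (f := fun t => if (q : ℤ) ∣ a t * n + b t * m then (2 : ℝ) else 0)
        (fun t _ => by split_ifs <;> norm_num) (Finset.mem_univ t)
      simp only [if_pos ht] at h8
      exact h4.trans h8
  refine (norm_sum_le _ _).trans ?_
  refine (Finset.sum_le_sum fun n _ => hterm n).trans ?_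
  rw [Finset.sum_comm]
  have h9 : ∀ t, ∑ n ∈ Icc (1 : ℤ) X, (if (q : ℤ) ∣ a t * n + b t * m then (2 : ℝ) else 0)
      ≤ 2 * (X / q + 1) := by
    intro t
    rw [← Finset.sum_filter, Finset.sum_const, nsmul_eq_mul]
    have := count_le (c := b t * m) (X := X) hq (ha t)
    linarith
  refine (Finset.sum_le_sum fun t _ => h9 t).trans ?_
  rw [Finset.sum_const, Finset.card_univ, nsmul_eq_mul]
  apply le_of_eq
  field_simp

end

theorem t_FAM2 : S_FAM2 := by
  intro ι _ _ a b ha M τ hM hτ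
  classical
  set k : ℝ := ((Fintype.card ι : ℕ) : ℝ) with hk
  have hk0 : 0 ≤ k := by positivity
  have hM' : (0 : ℝ) < M := by exact_mod_cast hM
  -- parameters
  set μ : ℝ := min 1 (τ / 9) with hμdef
  have hμ0 : 0 < μ := lt_min one_pos (by positivity)
  have hμ1 : μ ≤ 1 := min_le_left _ _
  have hμτ : 9 * μ ≤ τ := by
    have : μ ≤ τ / 9 := min_le_right _ _
    linarith
  obtain ⟨n0, net, qn, hnet1, hnet⟩ := exists_net μ hμ0
  set κ : ℝ := min (1 / 6) (min (μ / (4 * k + 6)) (τ / (18 * ((M : ℝ) + 1) + 3))) with hκdef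
  have hκ : 0 < κ := lt_min (by norm_num) (lt_min (by positivity) (by positivity))
  have hκ6 : κ ≤ 1 / 6 := min_le_left _ _
  have hκμ : (4 * k + 6) * κ ≤ μ := by
    have h : κ ≤ μ / (4 * k + 6) := (min_le_right _ _).trans (min_le_left _ _)
    rw [le_div_iff₀ (by positivity)] at h
    linarith
  have hκτ : (18 * ((M : ℝ) + 1) + 3) * κ ≤ τ := by
    have h : κ ≤ τ / (18 * ((M : ℝ) + 1) + 3) := (min_le_right _ _).trans (min_le_right _ _)
    rw [le_div_iff₀ (by positivity)] at h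
    linarith
  -- the index type of the family
  set IT := Fin n0 × (Fin M × Fin M → Fin n0) with hIT
  set eI := Fintype.equivFin IT with heI
  refine ⟨κ, hκ, by linarith, Fintype.card IT, ⌈1 / κ⌉₊ + ∑ t, (a t).natAbs + 1, fun P hP => ?_⟩
  refine ⟨⌈4 * (P : ℝ) * (1 / κ + 1)⌉₊, fun D x hD hx F G g P00 T hMA => ?_⟩
  have hPk : 1 / κ ≤ (P : ℝ) := (Nat.le_ceil _).trans (by exact_mod_cast (by omega))
  have hF := hMA.1
  have hG1 := hMA.2.1
  have hccb : ∀ (F' : ι → ℤ → ℂ), (∀ i m, ‖F' i m‖ ≤ 1) → ∀ X m, ‖cc a b F' X m‖ ≤ 1 := by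
    intro F' hF' X m
    unfold cc
    refine norm_av_le zero_le_one fun n => ?_
    rw [norm_prod]
    exact Finset.prod_le_one (fun _ _ => norm_nonneg _) fun i _ => hF' i _
  -- the cell indices
  set uu : ℤ → Fin M := fun d => ⟨min (M - 1) (((d - 1) * M / ((D / P : ℕ) : ℤ)).toNat),
    by omega⟩ with huu
  set rr : ℤ → Fin M := fun d => ⟨(d % M).toNat, by
    have h1 := Int.emod_lt_of_pos d (by exact_mod_cast hM : (0 : ℤ) < M)
    have h2 := Int.emod_nonneg d (by exact_mod_cast hM.ne' : (M : ℤ) ≠ 0)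
    omega⟩ with hrr
  set fam : IT → ℤ → ℂ := fun i d =>
    (net i.1 * cc a b G (x / P) d - net (i.2 (uu d, rr d))) / 2 with hfam
  have hfam1 : ∀ i d, ‖fam i d‖ ≤ 1 := by
    intro i d
    rw [hfam]
    dsimp only
    rw [norm_div]
    have h1 : ‖net i.1 * cc a b G (x / P) d‖ ≤ 1 := by
      rw [norm_mul]
      exact mul_le_one₀ (hnet1 _) (norm_nonneg _) (hccb _ hG1 _ _)
    have h2 := hnet1 (i.2 (uu d, rr d))
    have h3 := norm_sub_le (net i.1 * cc a b G (x / P) d) (net (i.2 (uu d, rr d)))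
    have h4 : ‖(2 : ℂ)‖ = 2 := by simp
    rw [h4, div_le_one (by norm_num)]
    linarith
  refine ⟨fun n => fam (eI.symm n), fun n m => hfam1 _ _, fun q hq hPq hqP h1 h2 hτq => ?_⟩
  have haq : ∀ t, ¬ (q : ℤ) ∣ a t := by
    intro t hd
    have h3 : q ≤ (a t).natAbs := by
      have h4 := Int.natAbs_dvd_natAbs.2 hd
      rw [Int.natAbs_natCast] at h4
      exact Nat.le_of_dvd (Int.natAbs_pos.2 (ha t)) h4
    have h5 : (a t).natAbs ≤ ∑ t, (a t).natAbs :=
      Finset.single_le_sum (f := fun t => (a t).natAbs) (fun _ _ => Nat.zero_le _)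
        (Finset.mem_univ t)
    omega
  obtain ⟨hD0, hD1, hD2, hD3⟩ := ratio hκ hκ6 hPk hPq hqP ((Nat.le_ceil _).trans
    (by exact_mod_cast hD : ((⌈4 * (P : ℝ) * (1 / κ + 1)⌉₊ : ℕ) : ℝ) ≤ D))
  obtain ⟨hx0, hx1, hx2, hx3⟩ := ratio hκ hκ6 hPk hPq hqP ((Nat.le_ceil _).trans
    (by exact_mod_cast hx : ((⌈4 * (P : ℝ) * (1 / κ + 1)⌉₊ : ℕ) : ℝ) ≤ x))
  have hq0 : (0 : ℝ) < q := by exact_mod_cast hq.pos
  have hqk : 1 / (q : ℝ) ≤ κ := by
    have h3 : 1 / κ ≤ (q : ℝ) := hPk.trans (by exact_mod_cast hPq)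
    rw [div_le_iff₀ hκ] at h3
    rw [div_le_iff₀ hq0]
    linarith
  have hP0 : 0 < P := by
    have : (0 : ℝ) < P := lt_of_lt_of_le (by positivity) hPk
    exact_mod_cast this
  have hDpos : 0 < D := by
    rcases Nat.eq_zero_or_pos D with h | h
    · rw [h] at hD0
      simp at hD0
    · exact h
  set Y : ℕ := D / P with hYdef
  set Z : ℕ := D / q with hZdef
  have hY0 : 0 < Y := lt_of_lt_of_le hD0 hD1
  have hY' : (0 : ℝ) < Y := by exact_mod_cast hY0
  have hZ' : (0 : ℝ) < Z := by exact_mod_cast hD0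
  have hPκ : 1 ≤ κ * P := by
    have := (div_le_iff₀ hκ).1 hPk
    linarith
  have hYκ : 1 ≤ κ * Y := by
    have h3 : 1 ≤ κ * Z := by
      rw [div_le_iff₀ hZ'] at hD3
      exact hD3
    have h4 : (Z : ℝ) ≤ Y := by exact_mod_cast hD1
    nlinarith
  have hYZ : (Y : ℝ) - Z ≤ 3 * κ * Y := by
    have h3 : 1 - 3 * κ ≤ (Z : ℝ) / Y := by linarith
    rw [le_div_iff₀ hY'] at h3
    linarith
  set c : ℤ → ℂ := cc a b F x with hc
  have hc1 : ∀ m, ‖c m‖ ≤ 1 := hccb _ hF _
  set G0 : ℂ := ∏ t, g t q with hG0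
  have hG0n : ‖G0‖ ≤ 1 := by
    rw [hG0, norm_prod]
    exact Finset.prod_le_one (fun _ _ => norm_nonneg _) fun i _ => hMA.2.2.1 i q hq h1 h2
  have hpt : ∀ m, ‖cc a b (fun i m => F i ((q : ℤ) * m)) (x / q) m - G0 * cc a b G (x / P) m‖
      ≤ μ := by
    intro m
    have e1 := cc_mult2 (b := b) hMA hq h1 h2 haq (x / q) hx0 m
    have e2 : ‖cc a b G (x / q) m - cc a b G (x / P) m‖ ≤ 2 * (3 * κ) := by
      unfold cc
      refine (av_compare hx0 hx1 fun n => ?_).trans (by linarith)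
      rw [norm_prod]
      exact Finset.prod_le_one (fun _ _ => norm_nonneg _) fun i _ => hG1 i _
    have e3 : cc a b (fun i m => F i ((q : ℤ) * m)) (x / q) m - G0 * cc a b G (x / P) m
        = (cc a b (fun i m => F i ((q : ℤ) * m)) (x / q) m - G0 * cc a b G (x / q) m)
          + G0 * (cc a b G (x / q) m - cc a b G (x / P) m) := by ring
    rw [e3]
    refine (norm_add_le _ _).trans ?_
    have e4 : ‖G0 * (cc a b G (x / q) m - cc a b G (x / P) m)‖ ≤ 2 * (3 * κ) := by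
      rw [norm_mul]
      calc _ ≤ 1 * ‖cc a b G (x / q) m - cc a b G (x / P) m‖ :=
            mul_le_mul_of_nonneg_right hG0n (norm_nonneg _)
        _ ≤ _ := by rw [one_mul]; exact e2
    have e5 : 2 * (Fintype.card ι : ℝ) * (1 / q + 1 / ((x / q : ℕ) : ℝ)) ≤ 2 * k * (κ + κ) := by
      rw [← hk]
      exact mul_le_mul_of_nonneg_left (add_le_add hqk hx3) (by positivity)
    calc _ ≤ 2 * k * (κ + κ) + 2 * (3 * κ) := add_le_add (e1.trans e5) e4
      _ = (4 * k + 6) * κ := by ring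
      _ ≤ μ := hκμ
  -- the element of the family
  set j0 : Fin n0 := qn G0 with hj0
  set s : Fin M × Fin M → Fin n0 := fun ur =>
    qn (V M D c (((ur.1 : ℕ) : ℤ), ((q : ℤ) * ((ur.2 : ℕ) : ℤ)) % M)) with hs
  refine ⟨eI (j0, s), ?_⟩
  simp only [Equiv.symm_apply_apply]
  have hj0n : ‖G0 - net j0‖ ≤ μ := hnet _ hG0n
  -- the first part
  set A1 : ℤ → ℝ := fun d =>
    ‖c ((q : ℤ) * d) - cc a b (fun i m => F i ((q : ℤ) * m)) (x / q) d‖ ^ 2 with hA1
  have hA10 : ∀ d, 0 ≤ A1 d := fun d => by rw [hA1]; positivity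
  have hA : ∀ d, ‖c ((q : ℤ) * d) - net j0 * cc a b G (x / P) d‖ ^ 2 ≤ 2 * A1 d + 8 * μ := by
    intro d
    have e : c ((q : ℤ) * d) - net j0 * cc a b G (x / P) d
        = (c ((q : ℤ) * d) - cc a b (fun i m => F i ((q : ℤ) * m)) (x / q) d)
          + ((cc a b (fun i m => F i ((q : ℤ) * m)) (x / q) d - G0 * cc a b G (x / P) d)
            + (G0 - net j0) * cc a b G (x / P) d) := by ring
    rw [e]
    refine (sq_add_le _ _).trans ?_
    have e1 : ‖(cc a b (fun i m => F i ((q : ℤ) * m)) (x / q) d - G0 * cc a b G (x / P) d)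
            + (G0 - net j0) * cc a b G (x / P) d‖ ≤ 2 * μ := by
      refine (norm_add_le _ _).trans ?_
      have e2 : ‖(G0 - net j0) * cc a b G (x / P) d‖ ≤ μ := by
        rw [norm_mul]
        calc _ ≤ μ * 1 := mul_le_mul hj0n (hccb _ hG1 _ _) (norm_nonneg _) hμ0.le
          _ = μ := mul_one _
      linarith [hpt d]
    have e3 : ‖(cc a b (fun i m => F i ((q : ℤ) * m)) (x / q) d - G0 * cc a b G (x / P) d)
            + (G0 - net j0) * cc a b G (x / P) d‖ ^ 2 ≤ 4 * μ := by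
      calc _ ≤ (2 * μ) ^ 2 := pow_le_pow_left₀ (norm_nonneg _) e1 2
        _ = 4 * (μ * μ) := by ring
        _ ≤ 4 * (μ * 1) := by nlinarith
        _ = 4 * μ := by ring
    have e4 : ‖c ((q : ℤ) * d) - cc a b (fun i m => F i ((q : ℤ) * m)) (x / q) d‖ ^ 2 = A1 d := rfl
    rw [e4]
    linarith
  -- bad set
  set bad : ℤ → Prop := fun d => ((q : ℤ) * d - 1) * M / D ≠ (d - 1) * M / Y with hbad
  have hpoint : ∀ d ∈ Icc (1 : ℤ) Y, ‖wf M D c ((q : ℤ) * d) - fam (j0, s) d‖ ^ 2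
      ≤ (if d ≤ Z then A1 d else 0) + (if d ≤ Z ∧ bad d then 2 else 0)
        + (if d ≤ Z then 0 else 1) + 9 / 2 * μ := by
    intro d hd
    rw [Finset.mem_Icc] at hd
    by_cases hdZ : d ≤ Z
    · have hqd : (q : ℤ) * d ≤ D := by
        calc (q : ℤ) * d ≤ q * Z := mul_le_mul_of_nonneg_left hdZ (by positivity)
          _ ≤ D := by exact_mod_cast Nat.mul_div_le D q
      have hqd1 : 1 ≤ (q : ℤ) * d := by
        have : (1 : ℤ) ≤ q := by exact_mod_cast hq.pos
        nlinarith [hd.1]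
      have ew : wf M D c ((q : ℤ) * d) = (c ((q : ℤ) * d) - V M D c (ky M D ((q : ℤ) * d))) / 2 := by
        unfold wf
        rw [if_pos ⟨hqd1, hqd⟩, St_eq ⟨hqd1, hqd⟩]
      rw [ew, hfam]
      dsimp only
      refine (norm_half_sub _ _ _ _).trans ?_
      rw [if_pos hdZ, if_pos hdZ]
      have hB : ‖V M D c (ky M D ((q : ℤ) * d)) - net (s (uu d, rr d))‖ ^ 2
          ≤ μ + (if d ≤ Z ∧ bad d then 4 else 0) := by
        by_cases hb : bad d
        · rw [if_pos ⟨hdZ, hb⟩]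
          have e1 : ‖V M D c (ky M D ((q : ℤ) * d)) - net (s (uu d, rr d))‖ ≤ 2 := by
            refine (norm_sub_le _ _).trans ?_
            linarith [V_norm (M := M) (D := D) hc1 (ky M D ((q : ℤ) * d)), hnet1 (s (uu d, rr d))]
          have e2 := pow_le_pow_left₀ (norm_nonneg _) e1 2
          linarith
        · rw [if_neg (fun h => hb h.2), add_zero]
          have hb' : ((q : ℤ) * d - 1) * M / D = (d - 1) * M / Y := by
            rw [hbad] at hb
            exact not_not.1 hb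
          have hkey : ky M D ((q : ℤ) * d)
              = ((((uu d : Fin M) : ℕ) : ℤ), ((q : ℤ) * (((rr d : Fin M) : ℕ) : ℤ)) % M) := by
            unfold ky
            have hYz : (0 : ℤ) < Y := by exact_mod_cast hY0
            have hi0 : 0 ≤ (d - 1) * (M : ℤ) / Y :=
              Int.ediv_nonneg (mul_nonneg (by linarith [hd.1]) (by positivity)) hYz.le
            have hiM : (d - 1) * (M : ℤ) / Y < M := by
              rw [Int.ediv_lt_iff_lt_mul hYz]
              have : (0 : ℤ) < M := by exact_mod_cast hM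
              nlinarith [hd.2]
            have e1 : (((uu d : Fin M) : ℕ) : ℤ) = (d - 1) * M / Y := by
              rw [huu]
              dsimp only
              rw [← hYdef]
              have e3 : ((d - 1) * (M : ℤ) / Y).toNat ≤ M - 1 := by omega
              rw [min_eq_right e3]
              exact Int.toNat_of_nonneg hi0
            have e2 : (((rr d : Fin M) : ℕ) : ℤ) = d % M := by
              rw [hrr]
              dsimp only
              exact Int.toNat_of_nonneg (Int.emod_nonneg d (by exact_mod_cast hM.ne'))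
            rw [e1, e2, hb']
            congr 1
            rw [Int.mul_emod, Int.mul_emod (q : ℤ) (d % M), Int.emod_emod_of_dvd d (dvd_refl _)]
          have e3 : ‖V M D c (ky M D ((q : ℤ) * d)) - net (s (uu d, rr d))‖ ≤ μ := by
            rw [hs]
            dsimp only
            rw [← hkey]
            exact hnet _ (V_norm hc1 _)
          calc _ ≤ μ ^ 2 := pow_le_pow_left₀ (norm_nonneg _) e3 2
            _ = μ * μ := sq _
            _ ≤ μ * 1 := mul_le_mul_of_nonneg_left hμ1 hμ0.le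
            _ = μ := mul_one _
      have hA' := hA d
      by_cases hb : bad d
      · rw [if_pos ⟨hdZ, hb⟩] at hB ⊢
        linarith
      · rw [if_neg (fun h => hb h.2)] at hB ⊢
        linarith
    · have hqd : ¬ ((q : ℤ) * d ≤ D) := by
        intro h
        apply hdZ
        push Not at hdZ
        have h3 : (D : ℤ) < q * (Z + 1) := by exact_mod_cast Nat.lt_mul_div_succ D hq.pos
        have h4 : (q : ℤ) * (Z + 1) ≤ q * d :=
          mul_le_mul_of_nonneg_left (by linarith) (by positivity)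
        linarith
      have ew : wf M D c ((q : ℤ) * d) = 0 := by
        unfold wf
        rw [if_neg (fun h => hqd h.2)]
      rw [ew, zero_sub, norm_neg, if_neg hdZ, if_neg hdZ, if_neg (fun h => hdZ h.1)]
      have h3 := hfam1 (j0, s) d
      have h4 := pow_le_pow_left₀ (norm_nonneg _) h3 2
      linarith
  unfold avr
  rw [div_le_iff₀ hY']
  refine (Finset.sum_le_sum hpoint).trans ?_
  rw [Finset.sum_add_distrib, Finset.sum_add_distrib, Finset.sum_add_distrib]
  have s1 : ∑ d ∈ Icc (1 : ℤ) Y, (if d ≤ Z then A1 d else 0) ≤ τ * Y := by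
    rw [← Finset.sum_filter]
    have e1 : (Icc (1 : ℤ) Y).filter (fun d : ℤ => d ≤ Z) = Icc (1 : ℤ) Z := by
      ext d
      simp only [Finset.mem_filter, Finset.mem_Icc]
      have : (Z : ℤ) ≤ Y := by exact_mod_cast hD1
      constructor
      · rintro ⟨⟨h3, _⟩, h4⟩
        exact ⟨h3, h4⟩
      · rintro ⟨h3, h4⟩
        exact ⟨⟨h3, by linarith⟩, h4⟩
    rw [e1]
    have e2 : (∑ d ∈ Icc (1 : ℤ) Z, A1 d) / Z ≤ τ := hτq
    rw [div_le_iff₀ hZ'] at e2
    have h4 : (Z : ℝ) ≤ Y := by exact_mod_cast hD1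
    calc _ ≤ τ * Z := e2
      _ ≤ τ * Y := mul_le_mul_of_nonneg_left h4 hτ.le
  have s2 : ∑ d ∈ Icc (1 : ℤ) Y, (if d ≤ Z ∧ bad d then (2 : ℝ) else 0)
      ≤ 18 * ((M : ℝ) + 1) * κ * Y := by
    rw [← Finset.sum_filter, Finset.sum_const, nsmul_eq_mul]
    have e1 := card_bad (M := M) (Y := Y) hκ hYκ ((Icc (1 : ℤ) Y).filter fun d => d ≤ Z ∧ bad d)
      (by
        intro d hd
        rw [Finset.mem_filter, Finset.mem_Icc] at hd
        refine ⟨hd.1.1, hd.1.2, ?_⟩
        have hqd : (q : ℤ) * d ≤ D := by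
          calc (q : ℤ) * d ≤ q * Z := mul_le_mul_of_nonneg_left hd.2.1 (by positivity)
            _ ≤ D := by exact_mod_cast Nat.mul_div_le D q
        exact near hM hP0 hY0 hDpos hYdef hd.1.1 hqd hPq hqP hPκ hYκ (by linarith) hd.2.2)
    linarith
  have s3 : ∑ d ∈ Icc (1 : ℤ) Y, (if d ≤ (Z : ℤ) then (0 : ℝ) else 1) ≤ 3 * κ * Y := by
    have e1 : ∑ d ∈ Icc (1 : ℤ) Y, (if d ≤ (Z : ℤ) then (0 : ℝ) else 1)
        = ∑ d ∈ Icc (1 : ℤ) Y, (if ¬ (d ≤ (Z : ℤ)) then (1 : ℝ) else 0) := by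
      refine Finset.sum_congr rfl fun d _ => ?_
      by_cases h : d ≤ (Z : ℤ)
      · simp [h]
      · simp [h]
    rw [e1, ← Finset.sum_filter, Finset.sum_const, nsmul_eq_mul, mul_one]
    have e2 : (Icc (1 : ℤ) Y).filter (fun d => ¬ (d ≤ (Z : ℤ))) = Icc ((Z : ℤ) + 1) Y := by
      ext d
      simp only [Finset.mem_filter, Finset.mem_Icc]
      omega
    rw [e2, Int.card_Icc]
    have e3 : ((((Y : ℤ) + 1 - (Z + 1)).toNat : ℕ) : ℝ) = (Y : ℝ) - Z := by
      have h3 : ((((Y : ℤ) + 1 - (Z + 1)).toNat : ℕ) : ℤ) = (Y : ℤ) - Z := by omega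
      have h4 : (((((Y : ℤ) + 1 - (Z + 1)).toNat : ℕ) : ℤ) : ℝ) = (((Y : ℤ) - Z : ℤ) : ℝ) := by
        rw [h3]
      push_cast at h4
      exact h4
    rw [e3]
    exact hYZ
  have s4 : ∑ _d ∈ Icc (1 : ℤ) Y, 9 / 2 * μ = 9 / 2 * μ * Y := by
    rw [Finset.sum_const, Int.card_Icc, nsmul_eq_mul]
    have : ((Y : ℤ) + 1 - 1).toNat = Y := by omega
    rw [this]
    ring
  rw [s4]
  have t1 : (18 * ((M : ℝ) + 1) + 3) * κ * Y ≤ τ * Y := mul_le_mul_of_nonneg_right hκτ hY'.le
  have t2 : 9 * μ * Y ≤ τ * Y := mul_le_mul_of_nonneg_right hμτ hY'.le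
  have t3 : 0 ≤ τ * Y := by positivity
  nlinarith

end Pool.Agent.N781.OM
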