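import Mathlib
import Pool.Agent.N781.OM.Fam
import Pool.Agent.N97.CH.Cmp

/-! Comparison at one prime (from `Pool.Agent.N97.CH.Cmp`). -/

namespace Pool.Agent.N781.OM

open Finset Pool.Agent.N675 Pool.Agent.N781.FV Pool.Agent.N781.A Pool.Agent.N781.S
open Pool.Agent.N821.A
open Pool.Agent.N97.CH (norm5)

/-- comparison at one prime -/
def S_CMP2 : Prop :=
  ∀ (ι : Type) [Fintype ι] [DecidableEq ι] (a b : ι → ℤ), (∀ i, a i ≠ 0) →
    ∀ κ : ℝ, 0 < κ → κ ≤ 1 / 6 → ∃ P0 : ℕ, ∀ P : ℕ, P0 ≤ P → ∃ K₀ : ℕ,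
    ∀ D x : ℕ, K₀ ≤ D → K₀ ≤ x →
    ∀ (F G : ι → ℤ → ℂ) (g : ι → ℕ → ℂ) (P00 T : ℕ), MG F g G P00 T →
    ∀ (S : ℤ → ℂ) (q : ℕ), q.Prime → P ≤ q → (q : ℝ) ≤ (1 + κ) * (P + 1) → P00 ≤ q → q ≤ T →
    ∀ (z : ℂ) (τ η : ℝ), ‖z‖ ≤ 1 →
      avr (D / q) (fun d => ‖cc a b F x ((q : ℤ) * d) - S ((q : ℤ) * d)‖ ^ 2) ≤ τ →
      avr (D / q) (fun d =>
        ‖cc a b F x ((q : ℤ) * d) - cc a b (fun i m => F i ((q : ℤ) * m)) (x / q) d‖ ^ 2) ≤ τ →
      ‖∏ i, g i q - z‖ ≤ η →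
      avr (D / q) (fun d => ‖S ((q : ℤ) * d) - z * cc a b G (x / P) d‖ ^ 2)
        ≤ 10 * τ + 5 * η ^ 2 + 200 * κ

theorem cmp2 : S_CMP2 := by
  intro ι _ _ a b ha κ hκ hκ6
  set k : ℝ := ((Fintype.card ι : ℕ) : ℝ) with hk
  have hk0 : 0 ≤ k := by positivity
  refine ⟨⌈(4 * k + 1) / κ⌉₊ + ∑ t, (a t).natAbs + 1, fun P hP => ?_⟩
  refine ⟨⌈4 * (P : ℝ) * (1 / κ + 1)⌉₊ + 4 * P * ⌈(4 * k + 1) / κ⌉₊, fun D x hD hx F G g P00 T hM S q
    hq hPq hqP h1 h2 z τ η hz hτ₁ hτ₂ hη => ?_⟩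
  have hPk' : (4 * k + 1) / κ ≤ (P : ℝ) := (Nat.le_ceil _).trans (by exact_mod_cast (by omega))
  have hPk : 1 / κ ≤ (P : ℝ) := (div_le_div_of_nonneg_right (by linarith) hκ.le).trans hPk'
  have haq : ∀ t, ¬ (q : ℤ) ∣ a t := by
    intro t hd
    have h3 : q ≤ (a t).natAbs := by
      have h4 := Int.natAbs_dvd_natAbs.2 hd
      rw [Int.natAbs_natCast] at h4
      exact Nat.le_of_dvd (Int.natAbs_pos.2 (ha t)) h4
    have h5 : (a t).natAbs ≤ ∑ t, (a t).natAbs :=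
      Finset.single_le_sum (f := fun t => (a t).natAbs) (fun _ _ => Nat.zero_le _)
        (Finset.mem_univ t)
    omega
  have hceil : ∀ N : ℕ, ⌈4 * (P : ℝ) * (1 / κ + 1)⌉₊ + 4 * P * ⌈(4 * k + 1) / κ⌉₊ ≤ N →
      4 * (P : ℝ) * (1 / κ + 1) ≤ N := fun N hN => (Nat.le_ceil _).trans (by
        exact_mod_cast (Nat.le_add_right _ _).trans hN)
  obtain ⟨hD0, -, -, -⟩ := ratio hκ hκ6 hPk hPq hqP (hceil D hD)
  obtain ⟨hx0, hx1, hx2, -⟩ := ratio hκ hκ6 hPk hPq hqP (hceil x hx)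
  have hF := hM.1
  have hG1 := hM.2.1
  have hq0 : (0 : ℝ) < q := by exact_mod_cast hq.pos
  have hP6 : (6 : ℝ) ≤ P := by
    have : (6 : ℝ) ≤ 1 / κ := by rw [le_div_iff₀ hκ]; linarith
    linarith
  have hq4 : (q : ℝ) ≤ 4 * P := by nlinarith
  have hq4' : q ≤ 4 * P := by exact_mod_cast hq4
  -- `1 / q` and `1 / (x / q)` are small
  have hqk : 1 / (q : ℝ) ≤ κ / (4 * k + 1) := by
    have h3 : (4 * k + 1) / κ ≤ (q : ℝ) := hPk'.trans (by exact_mod_cast hPq)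
    rw [div_le_iff₀ hκ] at h3
    rw [div_le_div_iff₀ hq0 (by positivity)]
    linarith
  have hX : (0 : ℝ) < ((x / q : ℕ) : ℝ) := by exact_mod_cast hx0
  have hxk : 1 / ((x / q : ℕ) : ℝ) ≤ κ / (4 * k + 1) := by
    have h3 : ⌈(4 * k + 1) / κ⌉₊ ≤ x / q := by
      rw [Nat.le_div_iff_mul_le hq.pos]
      calc ⌈(4 * k + 1) / κ⌉₊ * q ≤ ⌈(4 * k + 1) / κ⌉₊ * (4 * P) := Nat.mul_le_mul_left _ hq4'
        _ = 4 * P * ⌈(4 * k + 1) / κ⌉₊ := Nat.mul_comm _ _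
        _ ≤ x := (Nat.le_add_left _ _).trans hx
    have h4 : (4 * k + 1) / κ ≤ ((x / q : ℕ) : ℝ) := (Nat.le_ceil _).trans (by exact_mod_cast h3)
    rw [div_le_iff₀ hκ] at h4
    rw [div_le_div_iff₀ hX (by positivity)]
    linarith
  have hη0 : 0 ≤ η := (norm_nonneg _).trans hη
  have hcb : ∀ X m, ‖cc a b G X m‖ ≤ 1 := by
    intro X m
    unfold cc
    refine norm_av_le zero_le_one fun n => ?_
    rw [norm_prod]
    exact Finset.prod_le_one (fun _ _ => norm_nonneg _) fun i _ => hG1 i _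
  set Gp : ℂ := ∏ i, g i q with hGp
  have hpt : ∀ d : ℤ, ‖S ((q : ℤ) * d) - z * cc a b G (x / P) d‖ ^ 2 ≤
      5 * ‖cc a b F x ((q : ℤ) * d) - S ((q : ℤ) * d)‖ ^ 2 +
      5 * ‖cc a b F x ((q : ℤ) * d) - cc a b (fun i m => F i ((q : ℤ) * m)) (x / q) d‖ ^ 2 +
      (5 * η ^ 2 + 200 * κ) := by
    intro d
    have e : S ((q : ℤ) * d) - z * cc a b G (x / P) d =
        -(cc a b F x ((q : ℤ) * d) - S ((q : ℤ) * d)) +
        (cc a b F x ((q : ℤ) * d) - cc a b (fun i m => F i ((q : ℤ) * m)) (x / q) d) +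
        (cc a b (fun i m => F i ((q : ℤ) * m)) (x / q) d - Gp * cc a b G (x / q) d) +
        (Gp - z) * cc a b G (x / q) d +
        z * (cc a b G (x / q) d - cc a b G (x / P) d) := by ring
    have t3 : ‖cc a b (fun i m => F i ((q : ℤ) * m)) (x / q) d - Gp * cc a b G (x / q) d‖ ≤ κ := by
      refine (cc_mult2 (b := b) hM hq h1 h2 haq (x / q) hx0 d).trans ?_
      rw [← hk]
      have h3 : 1 / (q : ℝ) + 1 / ((x / q : ℕ) : ℝ) ≤ κ / (4 * k + 1) + κ / (4 * k + 1) :=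
        add_le_add hqk hxk
      refine (mul_le_mul_of_nonneg_left h3 (by positivity)).trans ?_
      have h4 : 2 * k * (κ / (4 * k + 1) + κ / (4 * k + 1)) = κ * (4 * k / (4 * k + 1)) := by ring
      rw [h4]
      have h5 : 4 * k / (4 * k + 1) ≤ 1 := by rw [div_le_one (by positivity)]; linarith
      exact mul_le_of_le_one_right hκ.le h5
    have t4 : ‖(Gp - z) * cc a b G (x / q) d‖ ≤ η := by
      rw [norm_mul]
      calc ‖Gp - z‖ * ‖cc a b G (x / q) d‖ ≤ η * 1 :=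
            mul_le_mul hη (hcb _ _) (norm_nonneg _) hη0
        _ = η := mul_one _
    have t5 : ‖z * (cc a b G (x / q) d - cc a b G (x / P) d)‖ ≤ 6 * κ := by
      rw [norm_mul]
      have e2 : ‖cc a b G (x / q) d - cc a b G (x / P) d‖ ≤ 6 * κ := by
        unfold cc
        refine (av_compare hx0 hx1 fun n => ?_).trans (by linarith)
        rw [norm_prod]
        exact Finset.prod_le_one (fun _ _ => norm_nonneg _) fun i _ => hG1 i _
      calc ‖z‖ * ‖cc a b G (x / q) d - cc a b G (x / P) d‖ ≤ 1 * (6 * κ) :=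
            mul_le_mul hz e2 (norm_nonneg _) zero_le_one
        _ = 6 * κ := one_mul _
    rw [e]
    refine (norm5 _ _ _ _ _).trans ?_
    rw [norm_neg]
    have s3 := pow_le_pow_left₀ (norm_nonneg _) t3 2
    have s4 := pow_le_pow_left₀ (norm_nonneg _) t4 2
    have s5 := pow_le_pow_left₀ (norm_nonneg _) t5 2
    have s6 : κ ^ 2 ≤ κ * (1 / 6) := by rw [sq]; exact mul_le_mul_of_nonneg_left hκ6 hκ.le
    nlinarith
  have := Pool.Agent.N97.CH.avr_le hD0 hpt hτ₁ hτ₂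
  linarith

end Pool.Agent.N781.OM
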