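import Mathlib
import Pool.Agent.N9.S.Pair

/-! A prime `p` and a product `p₁ p₂` in the same short block and the same residue class. -/

namespace Pool.Agent.N781.OM

open Finset Filter Topology
open Pool.Agent.N675 (cell mem_cell_prime mem_cell_lower mem_cell_upper cell_disjoint)
open Pool.Agent.N9.S.Pair (cl mass c2)

theorem sel (M : ℕ) (hM : 1 ≤ M) (κ : ℝ) (h0 : 0 < κ) (h1 : κ ≤ 1) :
    ∃ ρ : ℝ, 0 < ρ ∧ ∀ p₁ : ℕ, 0 < p₁ → p₁.Coprime M → ∀ (C' : ℝ) (P0 : ℕ),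
    ∃ (PR : Finset ℕ) (T : ℕ), (∀ p ∈ PR, p.Prime ∧ P0 ≤ p ∧ p ≤ T) ∧
    ∀ E₁ E₂ : Set ℕ, [DecidablePred (· ∈ E₁)] → [DecidablePred (· ∈ E₂)] →
      ∑ p ∈ PR.filter (· ∈ E₁), 1 / (p : ℝ) ≤ C' + ρ * ∑ p ∈ PR, 1 / (p : ℝ) →
      ∑ p ∈ PR.filter (· ∈ E₂), 1 / (p : ℝ) ≤ C' + ρ * ∑ p ∈ PR, 1 / (p : ℝ) →
      ∃ P p p₂ : ℕ, P0 ≤ P ∧ P ≤ T ∧ p ∈ PR ∧ p₂ ∈ PR ∧ p₁ * P ≤ p ∧ P ≤ p₂ ∧
        (p : ℝ) ≤ (1 + κ) * ((p₁ * P : ℕ) + 1) ∧ (p₂ : ℝ) ≤ (1 + κ) * (P + 1) ∧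
        ((p₁ * p₂ : ℕ) : ℝ) ≤ (1 + κ) * ((p₁ * P : ℕ) + 1) ∧ p ∉ E₁ ∧ p₂ ∉ E₂ ∧
        p % M = (p₁ * p₂) % M := by
  classical
  set δ : ℝ := κ / 4 with hδ
  have hδ0 : 0 < δ := by positivity
  have hδ1 : δ ≤ 1 := by linarith
  obtain ⟨c0, C2, hc0, hC2, J, hJ⟩ := mass M hM δ hδ0 hδ1
  refine ⟨c0 / (8 * C2 + 8), by positivity, fun p₁ hp₁ hcop C' P0 => ?_⟩
  have hpow : Tendsto (fun j : ℕ => (1 + δ) ^ j) atTop atTop :=
    tendsto_pow_atTop_atTop_of_one_lt (by linarith)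
  obtain ⟨J', hJ'⟩ := eventually_atTop.mp (hpow.eventually_ge_atTop ((P0 : ℝ) + 8 / κ))
  -- the shift
  obtain ⟨s, hs1, hs2⟩ : ∃ s : ℕ, (p₁ : ℝ) ≤ (1 + δ) ^ s ∧ (1 + δ) ^ s ≤ (1 + δ) * p₁ := by
    have hex : ∃ s : ℕ, (p₁ : ℝ) ≤ (1 + δ) ^ s := (hpow.eventually_ge_atTop (p₁ : ℝ)).exists
    have h2 := Nat.find_spec hex
    refine ⟨Nat.find hex, h2, ?_⟩
    rcases Nat.eq_zero_or_pos (Nat.find hex) with h3 | h3
    · rw [h3, pow_zero]
      have : (1 : ℝ) ≤ p₁ := by exact_mod_cast hp₁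
      nlinarith
    · have h4 := Nat.find_min hex (show Nat.find hex - 1 < Nat.find hex by omega)
      push Not at h4
      have h5 : (1 + δ) ^ Nat.find hex = (1 + δ) * (1 + δ) ^ (Nat.find hex - 1) := by
        rw [← pow_succ']
        congr 1
        omega
      rw [h5]
      exact mul_le_mul_of_nonneg_left h4.le (by linarith)
  obtain ⟨J0, hJ0⟩ : ∃ J0, J0 = max J J' := ⟨_, rfl⟩
  have hharm : ∃ b, J0 ≤ b ∧ 4 * |C'| / c0 + s
      < ∑ j ∈ Finset.Ico J0 b, 1 / (((j + s : ℕ) : ℝ) + 1) := by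
    have hdiv := Real.tendsto_sum_range_one_div_nat_succ_atTop
    obtain ⟨b, hb1, hb2⟩ := ((hdiv.eventually_gt_atTop
      (4 * |C'| / c0 + s + ∑ j ∈ Finset.range (J0 + s), 1 / ((j : ℝ) + 1))).and
      (eventually_ge_atTop (J0 + s))).exists
    refine ⟨b, by omega, ?_⟩
    rw [← Finset.sum_range_add_sum_Ico _ hb2] at hb1
    have h3 : ∑ j ∈ Finset.Ico (J0 + s) b, 1 / ((j : ℝ) + 1)
        ≤ ∑ j ∈ Finset.Ico J0 b, 1 / (((j + s : ℕ) : ℝ) + 1) := by
      have h4 := Finset.sum_Ico_add' (fun j : ℕ => 1 / ((j : ℝ) + 1)) J0 b s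
      rw [h4]
      exact Finset.sum_le_sum_of_subset_of_nonneg
        (Finset.Ico_subset_Ico_right (Nat.le_add_right _ _)) fun _ _ _ => by positivity
    linarith
  obtain ⟨J1, hJ01, hJ1⟩ := hharm
  have hcs : ∀ j : ℕ, c2 M p₁ δ j ⊆ cell δ j := fun j => Finset.filter_subset _ _
  have hlo : ∀ j, J0 ≤ j → (P0 : ℝ) + 8 / κ ≤ (1 + δ) ^ j := fun j hj => hJ' j (by omega)
  have h8 : 0 < 8 / κ := by positivity
  set PR := (Finset.Ico J0 (J1 + s)).biUnion (c2 M p₁ δ) with hPR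
  refine ⟨PR, ⌈(1 + δ) ^ (J1 + s)⌉₊, ?_, ?_⟩
  · intro p hp
    obtain ⟨j, hj, hpj⟩ := Finset.mem_biUnion.mp hp
    have hpc := hcs j hpj
    rw [Finset.mem_Ico] at hj
    have a1 := hlo j hj.1
    have a2 := mem_cell_lower hδ0 hpc
    refine ⟨mem_cell_prime hpc, ?_, ?_⟩
    · have : (P0 : ℝ) ≤ p := by linarith
      exact_mod_cast this
    · have h2 : (1 + δ) ^ (j + 1) ≤ (1 + δ) ^ (J1 + s) := pow_le_pow_right₀ (by linarith) (by omega)
      have h3 : (p : ℝ) ≤ (⌈(1 + δ) ^ (J1 + s)⌉₊ : ℕ) :=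
        (mem_cell_upper hδ0 hpc).trans (h2.trans (Nat.le_ceil _))
      exact_mod_cast h3
  · intro E₁ E₂ _ _ hE₁ hE₂
    by_contra hcon
    push Not at hcon
    have hdis : ∀ i j : ℕ, i ≠ j → Disjoint (c2 M p₁ δ i) (c2 M p₁ δ j) := by
      intro i j hij
      exact Finset.disjoint_of_subset_left (hcs i)
        (Finset.disjoint_of_subset_right (hcs j) (cell_disjoint hδ0 hij))
    have key : ∀ j ∈ Finset.Ico J0 J1, c0 / (((j + s : ℕ) : ℝ) + 1) ≤
        ∑ p ∈ (c2 M p₁ δ (j + s)).filter (· ∈ E₁), 1 / (p : ℝ)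
          + ∑ p ∈ (c2 M p₁ δ j).filter (· ∈ E₂), 1 / (p : ℝ) := by
      intro j hj
      have hj' := Finset.mem_Ico.1 hj
      have hJj : J ≤ j := by omega
      have n1 : 0 ≤ ∑ p ∈ (c2 M p₁ δ (j + s)).filter (· ∈ E₁), 1 / (p : ℝ) :=
        Finset.sum_nonneg fun _ _ => by positivity
      have n2 : 0 ≤ ∑ p ∈ (c2 M p₁ δ j).filter (· ∈ E₂), 1 / (p : ℝ) :=
        Finset.sum_nonneg fun _ _ => by positivity
      have hor : (∀ p ∈ cl M p₁ δ (j + s), p ∈ E₁) ∨ (∀ p ∈ cl M 1 δ j, p ∈ E₂) := by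
        by_contra hno
        push Not at hno
        obtain ⟨⟨p, hp, hpE⟩, p', hp', hpE'⟩ := hno
        unfold cl at hp hp'
        rw [Finset.mem_filter] at hp hp'
        have b1 := mem_cell_lower hδ0 hp.1
        have b2 := mem_cell_upper hδ0 hp.1
        have b3 := mem_cell_lower hδ0 hp'.1
        have b4 := mem_cell_upper hδ0 hp'.1
        have hlj := hlo j hj'.1
        set y : ℝ := (1 + δ) ^ j with hy
        have hy0 : (0 : ℝ) < y := by positivity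
        have hfl : ((⌊y⌋₊ : ℕ) : ℝ) ≤ y := Nat.floor_le hy0.le
        have hfl2 : y < (⌊y⌋₊ : ℕ) + 1 := Nat.lt_floor_add_one _
        have hp1R : (1 : ℝ) ≤ p₁ := by exact_mod_cast hp₁
        have e1 : (1 + δ) ^ (j + s) = y * (1 + δ) ^ s := by rw [hy, pow_add]
        have e2 : (1 + δ) ^ (j + s + 1) = y * (1 + δ) ^ s * (1 + δ) := by
          rw [hy, pow_add, pow_add, pow_one]
        have e3 : (1 + δ) ^ (j + 1) = y * (1 + δ) := by rw [hy, pow_succ]
        have hp1P : (p₁ : ℝ) * y ≤ y * (1 + δ) ^ s := by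
          rw [mul_comm]
          exact mul_le_mul_of_nonneg_left hs1 hy0.le
        have hbig : p₁ * y * (1 + δ) * (1 + δ) ≤ (1 + κ) * ((p₁ * ⌊y⌋₊ : ℕ) + 1) := by
          have f1 : (p₁ : ℝ) * (y - 1) ≤ (p₁ * ⌊y⌋₊ : ℕ) := by
            push_cast
            exact mul_le_mul_of_nonneg_left (by linarith) (by linarith)
          have f2 : (1 + δ) * (1 + δ) ≤ 1 + κ - κ / 4 := by
            rw [hδ]
            nlinarith
          have f3 : p₁ * y * (1 + δ) * (1 + δ) ≤ p₁ * y * (1 + κ - κ / 4) := by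
            rw [mul_assoc]
            exact mul_le_mul_of_nonneg_left f2 (by positivity)
          have f4 : (1 + κ) ≤ y * (κ / 4) := by
            have g1 : 8 / κ ≤ y := by
              have : (0 : ℝ) ≤ P0 := Nat.cast_nonneg _
              linarith
            rw [div_le_iff₀ h0] at g1
            linarith
          have f5 : (p₁ : ℝ) * (1 + κ) ≤ p₁ * (y * (κ / 4)) :=
            mul_le_mul_of_nonneg_left f4 (by linarith)
          have f6 : (1 + κ) * ((p₁ : ℝ) * (y - 1)) ≤ (1 + κ) * (p₁ * ⌊y⌋₊ : ℕ) :=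
            mul_le_mul_of_nonneg_left f1 (by linarith)
          calc p₁ * y * (1 + δ) * (1 + δ) ≤ p₁ * y * (1 + κ - κ / 4) := f3
            _ = (1 + κ) * (p₁ * (y - 1)) + (p₁ * (1 + κ) - p₁ * (y * (κ / 4))) := by ring
            _ ≤ (1 + κ) * ((p₁ * ⌊y⌋₊ : ℕ) + 1) := by linarith
        refine hcon ⌊y⌋₊ p p' ?_ ?_ ?_ ?_ ?_ ?_ ?_ ?_ ?_ hpE hpE' ?_
        · refine Nat.le_floor ?_
          linarith
        · have h2 : y ≤ (1 + δ) ^ (J1 + s) := pow_le_pow_right₀ (by linarith) (by omega)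
          have h3 : ((⌊y⌋₊ : ℕ) : ℝ) ≤ (⌈(1 + δ) ^ (J1 + s)⌉₊ : ℕ) :=
            hfl.trans (h2.trans (Nat.le_ceil _))
          exact_mod_cast h3
        · exact Finset.mem_biUnion.2 ⟨j + s, Finset.mem_Ico.2 ⟨by omega, by omega⟩,
            Finset.mem_filter.2 ⟨hp.1, Or.inr hp.2⟩⟩
        · exact Finset.mem_biUnion.2 ⟨j, Finset.mem_Ico.2 ⟨by omega, by omega⟩,
            Finset.mem_filter.2 ⟨hp'.1, Or.inl hp'.2⟩⟩
        · have g1 : ((p₁ * ⌊y⌋₊ : ℕ) : ℝ) ≤ p := by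
            push_cast
            calc (p₁ : ℝ) * (⌊y⌋₊ : ℕ) ≤ p₁ * y := mul_le_mul_of_nonneg_left hfl (by linarith)
              _ ≤ y * (1 + δ) ^ s := hp1P
              _ ≤ p := by rw [← e1]; exact b1.le
          exact_mod_cast g1
        · exact_mod_cast hfl.trans b3.le
        · rw [e2] at b2
          refine b2.trans (le_trans ?_ hbig)
          have g1 : y * (1 + δ) ^ s ≤ p₁ * y * (1 + δ) := by
            calc y * (1 + δ) ^ s ≤ y * ((1 + δ) * p₁) := mul_le_mul_of_nonneg_left hs2 hy0.le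
              _ = _ := by ring
          exact mul_le_mul_of_nonneg_right g1 (by linarith)
        · rw [e3] at b4
          refine b4.trans ?_
          have g1 : y * (1 + δ) ≤ (1 + δ) * ((⌊y⌋₊ : ℕ) + 1) := by
            rw [mul_comm]
            exact mul_le_mul_of_nonneg_left hfl2.le (by linarith)
          refine g1.trans (mul_le_mul_of_nonneg_right ?_ (by positivity))
          rw [hδ]
          linarith
        · rw [e3] at b4
          refine le_trans ?_ hbig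
          push_cast
          calc (p₁ : ℝ) * p' ≤ p₁ * (y * (1 + δ)) := mul_le_mul_of_nonneg_left b4 (by linarith)
            _ = p₁ * y * (1 + δ) * 1 := by ring
            _ ≤ p₁ * y * (1 + δ) * (1 + δ) :=
                mul_le_mul_of_nonneg_left (by linarith) (by positivity)
        · rw [hp.2, Nat.mul_mod, hp'.2, ← Nat.mul_mod, mul_one]
      rcases hor with h | h
      · have g1 := (hJ p₁ hcop (j + s) (by omega)).1
        have g2 : ∑ p ∈ cl M p₁ δ (j + s), 1 / (p : ℝ)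
            ≤ ∑ p ∈ (c2 M p₁ δ (j + s)).filter (· ∈ E₁), 1 / (p : ℝ) := by
          refine Finset.sum_le_sum_of_subset_of_nonneg ?_ fun _ _ _ => by positivity
          intro p hp
          have hp2 := Finset.mem_filter.1 hp
          exact Finset.mem_filter.2 ⟨Finset.mem_filter.2 ⟨hp2.1, Or.inr hp2.2⟩, h p hp⟩
        linarith
      · have g1 := (hJ 1 (Nat.coprime_one_left M) j hJj).1
        have g2 : ∑ p ∈ cl M 1 δ j, 1 / (p : ℝ)
            ≤ ∑ p ∈ (c2 M p₁ δ j).filter (· ∈ E₂), 1 / (p : ℝ) := by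
          refine Finset.sum_le_sum_of_subset_of_nonneg ?_ fun _ _ _ => by positivity
          intro p hp
          have hp2 := Finset.mem_filter.1 hp
          exact Finset.mem_filter.2 ⟨Finset.mem_filter.2 ⟨hp2.1, Or.inl hp2.2⟩, h p hp⟩
        have g3 : c0 / (((j + s : ℕ) : ℝ) + 1) ≤ c0 / ((j : ℝ) + 1) := by
          apply div_le_div_of_nonneg_left hc0.le (by positivity)
          push_cast
          have : (0 : ℝ) ≤ s := Nat.cast_nonneg _
          linarith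
        linarith
    -- the masses
    have hsum1 : ∑ j ∈ Finset.Ico J0 J1, ∑ p ∈ (c2 M p₁ δ (j + s)).filter (· ∈ E₁), 1 / (p : ℝ)
        ≤ ∑ p ∈ PR.filter (· ∈ E₁), 1 / (p : ℝ) := by
      rw [hPR, Finset.filter_biUnion, Finset.sum_biUnion fun i _ j _ hij =>
        Finset.disjoint_filter_filter (hdis i j hij)]
      have e1 := Finset.sum_Ico_add' (fun j : ℕ =>
        ∑ p ∈ (c2 M p₁ δ j).filter (· ∈ E₁), 1 / (p : ℝ)) J0 J1 s
      rw [e1]
      exact Finset.sum_le_sum_of_subset_of_nonneg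
        (Finset.Ico_subset_Ico_left (Nat.le_add_right _ _)) fun _ _ _ =>
          Finset.sum_nonneg fun _ _ => by positivity
    have hsum2 : ∑ j ∈ Finset.Ico J0 J1, ∑ p ∈ (c2 M p₁ δ j).filter (· ∈ E₂), 1 / (p : ℝ)
        ≤ ∑ p ∈ PR.filter (· ∈ E₂), 1 / (p : ℝ) := by
      rw [hPR, Finset.filter_biUnion, Finset.sum_biUnion fun i _ j _ hij =>
        Finset.disjoint_filter_filter (hdis i j hij)]
      exact Finset.sum_le_sum_of_subset_of_nonneg
        (Finset.Ico_subset_Ico_right (Nat.le_add_right _ _)) fun _ _ _ =>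
          Finset.sum_nonneg fun _ _ => by positivity
    have hlow : c0 * ∑ j ∈ Finset.Ico J0 J1, 1 / (((j + s : ℕ) : ℝ) + 1)
        ≤ ∑ p ∈ PR.filter (· ∈ E₁), 1 / (p : ℝ) + ∑ p ∈ PR.filter (· ∈ E₂), 1 / (p : ℝ) := by
      rw [Finset.mul_sum]
      refine (Finset.sum_le_sum fun j hj => ?_).trans
        ((le_of_eq Finset.sum_add_distrib).trans (add_le_add hsum1 hsum2))
      rw [mul_one_div]
      exact key j hj
    have hup : ∑ p ∈ PR, 1 / (p : ℝ)
        ≤ 2 * C2 * (s + ∑ j ∈ Finset.Ico J0 J1, 1 / (((j + s : ℕ) : ℝ) + 1)) := by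
      have g1 : ∑ p ∈ PR, 1 / (p : ℝ) ≤ ∑ j ∈ Finset.Ico J0 (J1 + s), 2 * C2 * (1 / ((j : ℝ) + 1)) := by
        rw [hPR, Finset.sum_biUnion (fun i _ j _ hij => hdis i j hij)]
        refine Finset.sum_le_sum fun j hj => ?_
        have hj' := Finset.mem_Ico.1 hj
        have hJj : J ≤ j := by omega
        have hsub : c2 M p₁ δ j ⊆ cl M 1 δ j ∪ cl M p₁ δ j := by
          intro p hp
          have hp2 := Finset.mem_filter.1 hp
          rw [Finset.mem_union]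
          rcases hp2.2 with h | h
          · exact Or.inl (Finset.mem_filter.2 ⟨hp2.1, h⟩)
          · exact Or.inr (Finset.mem_filter.2 ⟨hp2.1, h⟩)
        have s1 : ∑ p ∈ c2 M p₁ δ j, 1 / (p : ℝ) ≤ ∑ p ∈ cl M 1 δ j ∪ cl M p₁ δ j, 1 / (p : ℝ) :=
          Finset.sum_le_sum_of_subset_of_nonneg hsub fun _ _ _ => by positivity
        have s2 : ∑ p ∈ cl M 1 δ j ∪ cl M p₁ δ j, 1 / (p : ℝ) ≤
            ∑ p ∈ cl M 1 δ j, 1 / (p : ℝ) + ∑ p ∈ cl M p₁ δ j, 1 / (p : ℝ) := by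
          rw [← Finset.sum_union_inter]
          have : 0 ≤ ∑ p ∈ cl M 1 δ j ∩ cl M p₁ δ j, 1 / (p : ℝ) :=
            Finset.sum_nonneg fun _ _ => by positivity
          linarith
        have s3 := (hJ 1 (Nat.coprime_one_left M) j hJj).2
        have s4 := (hJ p₁ hcop j hJj).2
        have s5 : 2 * C2 * (1 / ((j : ℝ) + 1)) = C2 / ((j : ℝ) + 1) + C2 / ((j : ℝ) + 1) := by ring
        rw [s5]
        linarith
      refine g1.trans ?_
      rw [← Finset.mul_sum]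
      refine mul_le_mul_of_nonneg_left ?_ (by positivity)
      rw [← Finset.sum_Ico_consecutive (fun j : ℕ => 1 / ((j : ℝ) + 1)) (Nat.le_add_right J0 s)
        (Nat.add_le_add_right hJ01 s)]
      have e1 := Finset.sum_Ico_add' (fun j : ℕ => 1 / ((j : ℝ) + 1)) J0 J1 s
      rw [← e1]
      refine add_le_add ?_ le_rfl
      calc ∑ j ∈ Finset.Ico J0 (J0 + s), 1 / ((j : ℝ) + 1)
          ≤ ∑ _j ∈ Finset.Ico J0 (J0 + s), (1 : ℝ) := by
            refine Finset.sum_le_sum fun j _ => ?_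
            rw [div_le_one (by positivity)]
            have : (0 : ℝ) ≤ j := Nat.cast_nonneg _
            linarith
        _ = s := by
            rw [Finset.sum_const, Nat.card_Ico, nsmul_eq_mul, mul_one]
            congr 1
            omega
    obtain ⟨h, hh⟩ : ∃ h, h = ∑ j ∈ Finset.Ico J0 J1, 1 / (((j + s : ℕ) : ℝ) + 1) := ⟨_, rfl⟩
    rw [← hh] at hlow hup hJ1
    have hs0 : (0 : ℝ) ≤ s := Nat.cast_nonneg _
    have hh0 : 0 ≤ h := by
      rw [hh]
      exact Finset.sum_nonneg fun _ _ => by positivity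
    have hρ : 0 ≤ c0 / (8 * C2 + 8) := by positivity
    have g3 := mul_le_mul_of_nonneg_left hup hρ
    have g4 : c0 / (8 * C2 + 8) * (2 * C2 * (s + h)) ≤ c0 * (s + h) / 4 := by
      rw [div_mul_eq_mul_div, div_le_div_iff₀ (by positivity) (by norm_num)]
      have : 0 ≤ c0 * (s + h) := by positivity
      nlinarith
    have hJ1' : 4 * |C'| + c0 * s < c0 * h := by
      have e : 4 * |C'| / c0 + s = (4 * |C'| + c0 * s) / c0 := by field_simp
      rw [e, div_lt_iff₀ hc0] at hJ1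
      linarith
    have hC'a := le_abs_self C'
    have hC'0 := abs_nonneg C'
    have : c0 * h ≤ 2 * C' + 2 * (c0 * (s + h) / 4) := by linarith
    nlinarith

end Pool.Agent.N781.OM
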