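import Mathlib
import Pool.Agent.N781.OM.IsoCore
import Pool.Agent.N781.OM.Sel

/-! Comparison of one prime and a product of two primes. -/

namespace Pool.Agent.N781.OM

open Finset Pool.Agent.N675 Pool.Agent.N781.FV Pool.Agent.N781.A Pool.Agent.N781.S

lemma mass2_le (PR : Finset ℕ) (A B : ℕ → ℝ) (hA : ∀ p, 0 ≤ A p) (hB : ∀ p, 0 ≤ B p)
    (τ u v : ℝ) (hτ : 0 < τ) [DecidablePred (· ∈ {p : ℕ | τ < A p ∨ τ < B p})]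
    (h1 : ∑ p ∈ PR, (1 / (p : ℝ)) * A p ≤ u) (h2 : ∑ p ∈ PR, (1 / (p : ℝ)) * B p ≤ v) :
    ∑ p ∈ PR.filter (· ∈ {p : ℕ | τ < A p ∨ τ < B p}), 1 / (p : ℝ) ≤ (u + v) / τ := by
  rw [le_div_iff₀ hτ, Finset.sum_mul]
  calc ∑ p ∈ PR.filter (· ∈ {p : ℕ | τ < A p ∨ τ < B p}), 1 / (p : ℝ) * τ
      ≤ ∑ p ∈ PR.filter (· ∈ {p : ℕ | τ < A p ∨ τ < B p}), (1 / (p : ℝ)) * (A p + B p) := by
        refine Finset.sum_le_sum fun p hp => mul_le_mul_of_nonneg_left ?_ (by positivity)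
        have h := (Finset.mem_filter.mp hp).2
        have := hA p
        have := hB p
        rcases h with h | h <;> linarith
    _ ≤ ∑ p ∈ PR, (1 / (p : ℝ)) * (A p + B p) :=
        Finset.sum_le_sum_of_subset_of_nonneg (Finset.filter_subset _ _) fun p _ _ =>
          mul_nonneg (by positivity) (add_nonneg (hA p) (hB p))
    _ = ∑ p ∈ PR, (1 / (p : ℝ)) * A p + ∑ p ∈ PR, (1 / (p : ℝ)) * B p := by
        rw [← Finset.sum_add_distrib]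
        exact Finset.sum_congr rfl fun p _ => by ring
    _ ≤ u + v := add_le_add h1 h2

lemma mass3_le (PR : Finset ℕ) (A B C : ℕ → ℝ) (hA : ∀ p, 0 ≤ A p) (hB : ∀ p, 0 ≤ B p)
    (hC : ∀ p, 0 ≤ C p) (τ u v w : ℝ) (hτ : 0 < τ)
    [DecidablePred (· ∈ {p : ℕ | τ < A p ∨ τ < B p ∨ τ < C p})]
    (h1 : ∑ p ∈ PR, (1 / (p : ℝ)) * A p ≤ u) (h2 : ∑ p ∈ PR, (1 / (p : ℝ)) * B p ≤ v)
    (h3 : ∑ p ∈ PR, (1 / (p : ℝ)) * C p ≤ w) :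
    ∑ p ∈ PR.filter (· ∈ {p : ℕ | τ < A p ∨ τ < B p ∨ τ < C p}), 1 / (p : ℝ)
      ≤ (u + v + w) / τ := by
  rw [le_div_iff₀ hτ, Finset.sum_mul]
  calc ∑ p ∈ PR.filter (· ∈ {p : ℕ | τ < A p ∨ τ < B p ∨ τ < C p}), 1 / (p : ℝ) * τ
      ≤ ∑ p ∈ PR.filter (· ∈ {p : ℕ | τ < A p ∨ τ < B p ∨ τ < C p}),
          (1 / (p : ℝ)) * (A p + B p + C p) := by
        refine Finset.sum_le_sum fun p hp => mul_le_mul_of_nonneg_left ?_ (by positivity)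
        have h := (Finset.mem_filter.mp hp).2
        have := hA p
        have := hB p
        have := hC p
        rcases h with h | h | h <;> linarith
    _ ≤ ∑ p ∈ PR, (1 / (p : ℝ)) * (A p + B p + C p) :=
        Finset.sum_le_sum_of_subset_of_nonneg (Finset.filter_subset _ _) fun p _ _ =>
          mul_nonneg (by positivity) (add_nonneg (add_nonneg (hA p) (hB p)) (hC p))
    _ = ∑ p ∈ PR, (1 / (p : ℝ)) * A p + ∑ p ∈ PR, (1 / (p : ℝ)) * B p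
          + ∑ p ∈ PR, (1 / (p : ℝ)) * C p := by
        rw [← Finset.sum_add_distrib, ← Finset.sum_add_distrib]
        exact Finset.sum_congr rfl fun p _ => by ring
    _ ≤ u + v + w := add_le_add (add_le_add h1 h2) h3

lemma norm6 (u0 u1 u2 u3 u4 u5 u6 : ℂ) : ‖u0 - u6‖ ^ 2 ≤ 6 * (‖u0 - u1‖ ^ 2 + ‖u2 - u1‖ ^ 2
    + ‖u3 - u2‖ ^ 2 + ‖u3 - u4‖ ^ 2 + ‖u4 - u5‖ ^ 2 + ‖u6 - u5‖ ^ 2) := by
  have e : u0 - u6 = (u0 - u1) + (-(u2 - u1)) + (-(u3 - u2)) + (u3 - u4) + (u4 - u5)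
      + (-(u6 - u5)) := by ring
  have h1 : ‖u0 - u6‖ ≤ ‖u0 - u1‖ + ‖u2 - u1‖ + ‖u3 - u2‖ + ‖u3 - u4‖ + ‖u4 - u5‖
      + ‖u6 - u5‖ := by
    rw [e]
    refine (norm_add_le _ _).trans (add_le_add ((norm_add_le _ _).trans (add_le_add
      ((norm_add_le _ _).trans (add_le_add ((norm_add_le _ _).trans (add_le_add
        ((norm_add_le _ _).trans (add_le_add le_rfl ?_)) ?_)) le_rfl)) le_rfl)) ?_)
    · rw [norm_neg]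
    · rw [norm_neg]
    · rw [norm_neg]
  set p := ‖u0 - u1‖
  set q := ‖u2 - u1‖
  set r := ‖u3 - u2‖
  set s := ‖u3 - u4‖
  set t := ‖u4 - u5‖
  set v := ‖u6 - u5‖
  have h2 := pow_le_pow_left₀ (norm_nonneg _) h1 2
  nlinarith [sq_nonneg (p - q), sq_nonneg (p - r), sq_nonneg (p - s), sq_nonneg (p - t),
    sq_nonneg (p - v), sq_nonneg (q - r), sq_nonneg (q - s), sq_nonneg (q - t),
    sq_nonneg (q - v), sq_nonneg (r - s), sq_nonneg (r - t), sq_nonneg (r - v),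
    sq_nonneg (s - t), sq_nonneg (s - v), sq_nonneg (t - v)]

lemma Sta_one (M D : ℕ) (c : ℤ → ℂ) (d : ℤ) : Sta M D 1 c d = St M D c d := by
  unfold Sta St
  split_ifs
  · rw [Nat.cast_one, one_mul]
    rfl
  · rfl

lemma quarter (N : ℕ) (u : ℤ → ℝ) : avr N u = 4 * avr N fun n => u n / 4 := by
  rw [← avr_mul_left]
  congr 1
  funext n
  ring

theorem shift_core (hPair : S_PAIR) (hIdx : S_IDX) (hCmp : S_CMP2) (hD1 : S_DIL1) (hD2 : S_DIL2)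
    (ι : Type) [Fintype ι] [DecidableEq ι] (a b : ι → ℤ) (ha : ∀ i, a i ≠ 0)
    (ε : ℝ) (hε : 0 < ε) :
    ∃ ε₁ : ℝ, 0 < ε₁ ∧ ∀ M : ℕ, 0 < M → ∃ T K : ℕ, ∀ D x : ℕ, K ≤ D → K ≤ x →
    ∀ (F G H : ι → ℤ → ℂ) (g g' : ι → ℕ → ℂ), MG F g G 0 T → MG G g' H 0 T →
      (∀ p, p.Prime → p ≤ T → ∏ i, g i p = 1) → (∀ p, p.Prime → p ≤ T → ∏ i, g' i p = 1) →
      avr D (fun d => ‖cc a b F x d - St M D (cc a b F x) d‖ ^ 2) ≤ ε₁ →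
      avr D (fun d => ‖cc a b G x d - cc a b F x d‖ ^ 2) ≤ ε := by
  classical
  set τ : ℝ := ε / 4000 with hτ
  have hτ0 : 0 < τ := by positivity
  refine ⟨ε / 200, by positivity, ?_⟩
  intro M hM
  have hMR : (0 : ℝ) < M := by exact_mod_cast hM
  set κ : ℝ := min (1 / 6) (ε / (20000 * (M + 1))) with hκ
  have hκ0 : 0 < κ := by positivity
  have hκ6 : κ ≤ 1 / 6 := min_le_left _ _
  have hκM : κ ≤ ε / (20000 * (M + 1)) := min_le_right _ _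
  obtain ⟨ρ₁, hρ₁, hpair0⟩ := hPair M 1 hM (Nat.coprime_one_left M) κ hκ0 (by linarith)
  obtain ⟨ρ₂, hρ₂, hsel0⟩ := sel M hM κ hκ0 (by linarith)
  set ε' : ℝ := min ρ₁ ρ₂ * τ / 3 with hε'
  have hmin0 : 0 < min ρ₁ ρ₂ := lt_min hρ₁ hρ₂
  have hε'0 : 0 < ε' := by positivity
  obtain ⟨C₁, hC₁⟩ := hD1 ε' hε'0
  obtain ⟨C₂, hC₂⟩ := hD2 ι a b ha ε' hε'0
  obtain ⟨P0c, hP0c⟩ := hCmp ι a b ha κ hκ0 hκ6
  obtain ⟨Pκ, hPκ⟩ := exists_nat_ge (1 / κ)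
  set P0b := P0c + Pκ + M + 1 with hP0b
  set CC : ℝ := (C₁ + C₁ + C₂) / τ + |C₁ + C₂| / τ with hCC
  obtain ⟨PR₁, T₁, hPR₁, hpair⟩ := hpair0 ((C₁ + C₂) / τ) P0b
  have hprime₁ : ∀ p ∈ PR₁, p.Prime := fun p hp => (hPR₁ p hp).1
  obtain ⟨K1a, hK1a⟩ := hC₁ PR₁ hprime₁
  obtain ⟨K2a, hK2a⟩ := hC₂ PR₁ hprime₁
  have hexS : ∀ p₁ : ℕ, ∃ (PR : Finset ℕ) (T K : ℕ), 0 < p₁ → p₁.Coprime M →
      (∀ p ∈ PR, p.Prime ∧ P0b ≤ p ∧ p ≤ T) ∧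
      (∀ E₁ E₂ : Set ℕ,
        ∑ p ∈ PR.filter (· ∈ E₁), 1 / (p : ℝ) ≤ (C₁ + C₁ + C₂) / τ + ρ₂ * ∑ p ∈ PR, 1 / (p : ℝ) →
        ∑ p ∈ PR.filter (· ∈ E₂), 1 / (p : ℝ) ≤ (C₁ + C₁ + C₂) / τ + ρ₂ * ∑ p ∈ PR, 1 / (p : ℝ) →
        ∃ P p p₂ : ℕ, P0b ≤ P ∧ P ≤ T ∧ p ∈ PR ∧ p₂ ∈ PR ∧ p₁ * P ≤ p ∧ P ≤ p₂ ∧
          (p : ℝ) ≤ (1 + κ) * ((p₁ * P : ℕ) + 1) ∧ (p₂ : ℝ) ≤ (1 + κ) * (P + 1) ∧
          ((p₁ * p₂ : ℕ) : ℝ) ≤ (1 + κ) * ((p₁ * P : ℕ) + 1) ∧ p ∉ E₁ ∧ p₂ ∉ E₂ ∧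
          p % M = (p₁ * p₂) % M) ∧
      (∀ D : ℕ, K ≤ D → ∀ f : ℤ → ℝ, (∀ m, 0 ≤ f m ∧ f m ≤ 1) →
        ∑ p ∈ PR, (1 / (p : ℝ)) * |avr (D / p) (fun d => f ((p : ℤ) * d)) - avr D f|
          ≤ C₁ + ε' * ∑ p ∈ PR, 1 / (p : ℝ)) ∧
      (∀ D x : ℕ, K ≤ D → K ≤ x → ∀ F : ι → ℤ → ℂ, (∀ i m, ‖F i m‖ ≤ 1) →
        ∑ p ∈ PR, (1 / (p : ℝ)) * avr (D / p) (fun d =>
          ‖cc a b F x ((p : ℤ) * d) - cc a b (fun i m => F i ((p : ℤ) * m)) (x / p) d‖ ^ 2)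
          ≤ C₂ + ε' * ∑ p ∈ PR, 1 / (p : ℝ)) := by
    intro p₁
    by_cases h : 0 < p₁ ∧ p₁.Coprime M
    · obtain ⟨PR, T, hPR, hs⟩ := hsel0 p₁ h.1 h.2 ((C₁ + C₁ + C₂) / τ) P0b
      obtain ⟨K1, hK1⟩ := hC₁ PR fun p hp => (hPR p hp).1
      obtain ⟨K2, hK2⟩ := hC₂ PR fun p hp => (hPR p hp).1
      refine ⟨PR, T, K1 + K2, fun _ _ => ⟨hPR, fun E₁ E₂ h1 h2 => ?_,
        fun D hD => hK1 D (by omega), fun D x hD hx => hK2 D x (by omega) (by omega)⟩⟩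
      exact hs E₁ E₂ h1 h2
    · exact ⟨∅, 0, 0, fun h1 h2 => absurd ⟨h1, h2⟩ h⟩
  choose PR₂ T₂ K₂ hS using hexS
  have hexI : ∀ P : ℕ, ∃ K : ℕ, 1 / κ ≤ P → ∀ D : ℕ, K ≤ D → ∀ p p' m : ℕ, P ≤ p → P ≤ p' →
      (p : ℝ) ≤ (1 + κ) * (P + 1) →
      (p' : ℝ) ≤ (1 + κ) * (P + 1) → p' % M = (m * p) % M →
      ∀ c : ℤ → ℂ, (∀ m, ‖c m‖ ≤ 1) →
        avr (min (D / p) (D / p')) (fun d =>
          ‖St M D c ((p' : ℤ) * d) - Sta M D m c ((p : ℤ) * d)‖ ^ 2) ≤ 20 * M * κ := by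
    intro P
    by_cases h : 1 / κ ≤ P
    · obtain ⟨K, hK⟩ := hIdx M κ P hM hκ0 hκ6 h
      exact ⟨K, fun _ => hK⟩
    · exact ⟨0, fun h' => absurd h' h⟩
  choose KI hKI using hexI
  have hexC : ∀ P : ℕ, ∃ K₀ : ℕ, P0c ≤ P → ∀ D x : ℕ, K₀ ≤ D → K₀ ≤ x →
    ∀ (F G : ι → ℤ → ℂ) (g : ι → ℕ → ℂ) (P00 T : ℕ), MG F g G P00 T →
    ∀ (S : ℤ → ℂ) (q : ℕ), q.Prime → P ≤ q → (q : ℝ) ≤ (1 + κ) * (P + 1) → P00 ≤ q → q ≤ T →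
    ∀ (z : ℂ) (τ η : ℝ), ‖z‖ ≤ 1 →
      avr (D / q) (fun d => ‖cc a b F x ((q : ℤ) * d) - S ((q : ℤ) * d)‖ ^ 2) ≤ τ →
      avr (D / q) (fun d =>
        ‖cc a b F x ((q : ℤ) * d) - cc a b (fun i m => F i ((q : ℤ) * m)) (x / q) d‖ ^ 2) ≤ τ →
      ‖∏ i, g i q - z‖ ≤ η →
      avr (D / q) (fun d => ‖S ((q : ℤ) * d) - z * cc a b G (x / P) d‖ ^ 2)
        ≤ 10 * τ + 5 * η ^ 2 + 200 * κ := by
    intro P
    by_cases h : P0c ≤ P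
    · obtain ⟨K, hK⟩ := hP0c P h
      exact ⟨K, fun _ => hK⟩
    · exact ⟨0, fun h' => absurd h' h⟩
  choose KC hKC using hexC
  set TT : ℕ := (T₁ + 1) * (∑ p ∈ Finset.range (T₁ + 1), T₂ p + 1) with hTT
  set K' : ℕ := K1a + K2a + ∑ p ∈ Finset.range (T₁ + 1), K₂ p
    + ∑ P ∈ Finset.range (TT + 1), (KI P + KC P) + 4 * TT * (Pκ + 1) + 1 with hK'
  refine ⟨TT, K' * (T₁ + 1), ?_⟩
  intro D x hD' hx' F G H g g' hFG hGH hg1 hg1' hres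
  have hD : K' ≤ D := le_trans (Nat.le_mul_of_pos_right _ (Nat.succ_pos _)) hD'
  have hx : K' ≤ x := le_trans (Nat.le_mul_of_pos_right _ (Nat.succ_pos _)) hx'
  have hD1' : ∀ q : ℕ, 0 < q → q ≤ T₁ → K' ≤ D / q := by
    intro q hq0 hq
    rw [Nat.le_div_iff_mul_le hq0]
    exact (Nat.mul_le_mul_left _ (by omega)).trans hD'
  have hx1' : ∀ q : ℕ, 0 < q → q ≤ T₁ → K' ≤ x / q := by
    intro q hq0 hq
    rw [Nat.le_div_iff_mul_le hq0]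
    exact (Nat.mul_le_mul_left _ (by omega)).trans hx'
  set cF := cc a b F x with hcF
  set cG := cc a b G x with hcG
  have hF1 := hFG.1
  have hG1 := hGH.1
  have hcFn : ∀ m, ‖cF m‖ ≤ 1 := cc_norm a b F hF1 x
  have hcGn : ∀ m, ‖cG m‖ ≤ 1 := cc_norm a b G hG1 x
  have hStn := St_norm M D cF hcFn
  have hf4 : ∀ u w : ℂ, ‖u‖ ≤ 1 → ‖w‖ ≤ 1 → 0 ≤ ‖u - w‖ ^ 2 / 4 ∧ ‖u - w‖ ^ 2 / 4 ≤ 1 := by
    intro u w hu hw
    refine ⟨by positivity, ?_⟩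
    have e1 := norm_sub_le u w
    have e4 : ‖u - w‖ ≤ 2 := by linarith
    rw [div_le_one (by norm_num)]
    have := norm_nonneg (u - w)
    nlinarith
  set h : ℤ → ℝ := fun n => ‖cF n - St M D cF n‖ ^ 2 / 4 with hh
  have hh01 : ∀ n, 0 ≤ h n ∧ h n ≤ 1 := fun n => hf4 _ _ (hcFn n) (hStn n)
  set f : ℤ → ℝ := fun n => ‖cG n - cF n‖ ^ 2 / 4 with hf
  have hf01 : ∀ n, 0 ≤ f n ∧ f n ≤ 1 := fun n => hf4 _ _ (hcGn n) (hcFn n)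
  set Ah : ℕ → ℝ := fun p => |avr (D / p) (fun d => h ((p : ℤ) * d)) - avr D h| with hAh
  set Af : ℕ → ℝ := fun p => |avr (D / p) (fun d => f ((p : ℤ) * d)) - avr D f| with hAf
  set AF : ℕ → ℝ := fun p => avr (D / p) (fun d =>
    ‖cF ((p : ℤ) * d) - cc a b (fun i m => F i ((p : ℤ) * m)) (x / p) d‖ ^ 2) with hAF
  set AG : ℕ → ℝ := fun p => avr (D / p) (fun d =>
    ‖cG ((p : ℤ) * d) - cc a b (fun i m => G i ((p : ℤ) * m)) (x / p) d‖ ^ 2) with hAG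
  have hAh0 : ∀ p, 0 ≤ Ah p := fun p => abs_nonneg _
  have hAf0 : ∀ p, 0 ≤ Af p := fun p => abs_nonneg _
  have hAF0 : ∀ p, 0 ≤ AF p := fun p => avr_nonneg _ _ fun _ _ _ => by positivity
  have hAG0 : ∀ p, 0 ≤ AG p := fun p => avr_nonneg _ _ fun _ _ _ => by positivity
  have hε'ρ : ∀ S : ℝ, 0 ≤ S → 3 * (ε' * S) / τ ≤ min ρ₁ ρ₂ * S := by
    intro S _
    rw [hε']
    refine le_of_eq ?_
    field_simp
  -- the first prime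
  obtain ⟨-, p₁, -, -, -, hp₁, -, -, -, -, -, hp₁E, -, -, -⟩ :=
    hpair {p | τ < Ah p ∨ τ < AF p} (by
    refine (mass2_le PR₁ Ah AF hAh0 hAF0 τ _ _ hτ0 (hK1a D (by omega) h hh01)
      (hK2a D x (by omega) (by omega) F hF1)).trans ?_
    have hS0 : 0 ≤ ∑ p ∈ PR₁, 1 / (p : ℝ) := Finset.sum_nonneg fun _ _ => by positivity
    set S := ∑ p ∈ PR₁, 1 / (p : ℝ)
    have e1 : (C₁ + ε' * S + (C₂ + ε' * S)) / τ = (C₁ + C₂) / τ + 2 * (ε' * S) / τ := by ring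
    have e2 := hε'ρ S hS0
    have e3 : 2 * (ε' * S) / τ ≤ 3 * (ε' * S) / τ := by
      apply div_le_div_of_nonneg_right _ hτ0.le
      have : 0 ≤ ε' * S := by positivity
      linarith
    have e4 : min ρ₁ ρ₂ * S ≤ ρ₁ * S := mul_le_mul_of_nonneg_right (min_le_left _ _) hS0
    linarith)
  simp only [Set.mem_ofPred_eq, not_or, not_lt] at hp₁E
  obtain ⟨hp₁h, hp₁F⟩ := hp₁E
  obtain ⟨hp₁p, hp₁P, hp₁T⟩ := hPR₁ p₁ hp₁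
  have hp₁M : ¬ p₁ ∣ M := fun hd => by
    have := Nat.le_of_dvd hM hd
    omega
  have hcop : p₁.Coprime M := (Nat.Prime.coprime_iff_not_dvd hp₁p).mpr hp₁M
  obtain ⟨hPR₂, hsel, hK1b, hK2b⟩ := hS p₁ hp₁p.pos hcop
  have hp₁r : p₁ ∈ Finset.range (T₁ + 1) := Finset.mem_range.mpr (by omega)
  have hT₂le : T₂ p₁ ≤ ∑ p ∈ Finset.range (T₁ + 1), T₂ p :=
    Finset.single_le_sum (f := fun p => T₂ p) (fun _ _ => Nat.zero_le _) hp₁r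
  have hK₂le : K₂ p₁ ≤ ∑ p ∈ Finset.range (T₁ + 1), K₂ p :=
    Finset.single_le_sum (f := fun p => K₂ p) (fun _ _ => Nat.zero_le _) hp₁r
  have hT₂TT : T₂ p₁ ≤ TT := by
    rw [hTT]
    calc T₂ p₁ ≤ ∑ p ∈ Finset.range (T₁ + 1), T₂ p + 1 := by omega
      _ ≤ _ := Nat.le_mul_of_pos_left _ (Nat.succ_pos _)
  have hT₁TT : T₁ ≤ TT := by
    rw [hTT]
    calc T₁ ≤ T₁ + 1 := by omega
      _ ≤ _ := Nat.le_mul_of_pos_right _ (Nat.succ_pos _)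
  set D₁ := D / p₁ with hD₁
  set x₁ := x / p₁ with hx₁
  have hKD₁ : K' ≤ D₁ := hD1' p₁ hp₁p.pos hp₁T
  have hKx₁ : K' ≤ x₁ := hx1' p₁ hp₁p.pos hp₁T
  set cG₁ := cc a b G x₁ with hcG₁
  have hcG₁n : ∀ m, ‖cG₁ m‖ ≤ 1 := cc_norm a b G hG1 x₁
  set f₁ : ℤ → ℝ := fun e => ‖cF ((p₁ : ℤ) * e) - cG₁ e‖ ^ 2 / 4 with hf₁
  have hf₁01 : ∀ n, 0 ≤ f₁ n ∧ f₁ n ≤ 1 := fun n => hf4 _ _ (hcFn _) (hcG₁n n)
  set f₂ : ℤ → ℝ := fun e => h ((p₁ : ℤ) * e) with hf₂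
  have hf₂01 : ∀ n, 0 ≤ f₂ n ∧ f₂ n ≤ 1 := fun n => hh01 _
  set B₁ : ℕ → ℝ := fun p => |avr (D₁ / p) (fun d => f₁ ((p : ℤ) * d)) - avr D₁ f₁| with hB₁
  set B₂ : ℕ → ℝ := fun p => |avr (D₁ / p) (fun d => f₂ ((p : ℤ) * d)) - avr D₁ f₂| with hB₂
  set BG : ℕ → ℝ := fun p => avr (D₁ / p) (fun d =>
    ‖cG₁ ((p : ℤ) * d) - cc a b (fun i m => G i ((p : ℤ) * m)) (x₁ / p) d‖ ^ 2) with hBG
  have hB₁0 : ∀ p, 0 ≤ B₁ p := fun p => abs_nonneg _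
  have hB₂0 : ∀ p, 0 ≤ B₂ p := fun p => abs_nonneg _
  have hBG0 : ∀ p, 0 ≤ BG p := fun p => avr_nonneg _ _ fun _ _ _ => by positivity
  have hS0 : 0 ≤ ∑ p ∈ PR₂ p₁, 1 / (p : ℝ) := Finset.sum_nonneg fun _ _ => by positivity
  have hmass : (C₁ + ε' * ∑ p ∈ PR₂ p₁, 1 / (p : ℝ) + (C₁ + ε' * ∑ p ∈ PR₂ p₁, 1 / (p : ℝ))
      + (C₂ + ε' * ∑ p ∈ PR₂ p₁, 1 / (p : ℝ))) / τ
      ≤ (C₁ + C₁ + C₂) / τ + ρ₂ * ∑ p ∈ PR₂ p₁, 1 / (p : ℝ) := by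
    set S := ∑ p ∈ PR₂ p₁, 1 / (p : ℝ)
    have e1 : (C₁ + ε' * S + (C₁ + ε' * S) + (C₂ + ε' * S)) / τ
        = (C₁ + C₁ + C₂) / τ + 3 * (ε' * S) / τ := by ring
    have e2 := hε'ρ S hS0
    have e4 : min ρ₁ ρ₂ * S ≤ ρ₂ * S := mul_le_mul_of_nonneg_right (min_le_right _ _) hS0
    linarith
  have m1 := (mass3_le (PR₂ p₁) Af Ah AG hAf0 hAh0 hAG0 τ _ _ _ hτ0 (hK1b D (by omega) f hf01)
        (hK1b D (by omega) h hh01) (hK2b D x (by omega) (by omega) G hG1)).trans hmass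
  have m2 := (mass3_le (PR₂ p₁) B₁ B₂ BG hB₁0 hB₂0 hBG0 τ _ _ _ hτ0 (hK1b D₁ (by omega) f₁ hf₁01)
        (hK1b D₁ (by omega) f₂ hf₂01) (hK2b D₁ x₁ (by omega) (by omega) G hG1)).trans hmass
  obtain ⟨P, p, p₂, hP0, hPT, hp, hp₂, hPp, hPp₂, hpκ, hp₂κ, hppκ, hpE, hp₂E, hmod⟩ :=
    hsel {p | τ < Af p ∨ τ < Ah p ∨ τ < AG p} {p | τ < B₁ p ∨ τ < B₂ p ∨ τ < BG p}
      (by convert m1; rfl) (by convert m2; rfl)
  simp only [Set.mem_ofPred_eq, not_or, not_lt] at hpE hp₂E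
  obtain ⟨hpf, hph, hpG⟩ := hpE
  obtain ⟨hp₂1, hp₂2, hp₂G⟩ := hp₂E
  obtain ⟨hpp, hpP0, hpT⟩ := hPR₂ p hp
  obtain ⟨hp₂p, hp₂P0, hp₂T⟩ := hPR₂ p₂ hp₂
  -- sizes of the blocks
  set Pb := p₁ * P with hPb
  have hPPb : P ≤ Pb := Nat.le_mul_of_pos_left _ hp₁p.pos
  have hPbTT : Pb ≤ TT := by
    rw [hPb, hTT]
    exact Nat.mul_le_mul (by omega) (by omega)
  have hK : ∀ P : ℕ, P ≤ TT → KI P + KC P ≤ ∑ P ∈ Finset.range (TT + 1), (KI P + KC P) :=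
    fun P hP => Finset.single_le_sum (f := fun P => KI P + KC P) (fun _ _ => Nat.zero_le _)
      (Finset.mem_range.mpr (by omega))
  have hKPb := hK Pb hPbTT
  have hKP := hK P (hPT.trans hT₂TT)
  have hKp₁ := hK p₁ (hp₁T.trans hT₁TT)
  have hPR1 : (1 : ℝ) / κ ≤ Pb := hPκ.trans (by exact_mod_cast (by omega : Pκ ≤ Pb))
  have hbig : 4 * (Pb : ℝ) * (1 / κ + 1) ≤ D := by
    have e1 : (4 * TT * (Pκ + 1) : ℝ) ≤ D := by exact_mod_cast (by omega : 4 * TT * (Pκ + 1) ≤ D)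
    refine le_trans ?_ e1
    have e2 : (Pb : ℝ) ≤ TT := by exact_mod_cast hPbTT
    gcongr
  have hPbpp : Pb ≤ p₁ * p₂ := Nat.mul_le_mul_left _ hPp₂
  obtain ⟨q1, q2, q3, _⟩ := N821.A.ratio hκ0 hκ6 hPR1 hPp hpκ hbig
  obtain ⟨q1', q2', q3', _⟩ := N821.A.ratio hκ0 hκ6 hPR1 hPbpp hppκ hbig
  set Y := D / Pb with hY
  set X := min (D / p) (D / (p₁ * p₂)) with hX
  have hX0 : 0 < X := lt_min q1 q1'
  have hXp : X ≤ D / p := min_le_left _ _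
  have hXp' : X ≤ D / (p₁ * p₂) := min_le_right _ _
  have hYR : (0 : ℝ) < (Y : ℝ) := by exact_mod_cast (lt_of_lt_of_le q1 q2)
  have hXY : (1 - 3 * κ) * Y ≤ X := by
    rcases min_choice (D / p) (D / (p₁ * p₂)) with h | h
    · rw [hX, h]
      have : 1 - 3 * κ ≤ ((D / p : ℕ) : ℝ) / Y := by linarith
      rwa [le_div_iff₀ hYR] at this
    · rw [hX, h]
      have : 1 - 3 * κ ≤ ((D / (p₁ * p₂) : ℕ) : ℝ) / Y := by linarith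
      rwa [le_div_iff₀ hYR] at this
  have hY2X : Y ≤ 2 * X := by
    have : (Y : ℝ) ≤ 2 * X := by nlinarith
    exact_mod_cast this
  have hX2p : D / p ≤ 2 * X := q2.trans hY2X
  have hX2p' : D / (p₁ * p₂) ≤ 2 * X := q2'.trans hY2X
  have hD₁p₂ : D₁ / p₂ = D / (p₁ * p₂) := by rw [hD₁, Nat.div_div_eq_div_mul]
  have hx₁P : x₁ / P = x / Pb := by rw [hx₁, Nat.div_div_eq_div_mul]
  set R := cc a b H (x / Pb) with hR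
  -- the six comparisons
  have b1 := hKC Pb (by omega) D x (by omega) (by omega) G H g' 0 TT hGH cG p hpp hPp hpκ
    (Nat.zero_le _) (hpT.trans hT₂TT) 1 τ 0 (by simp)
    (by
      refine le_trans (le_of_eq ?_) hτ0.le
      unfold avr
      simp [← hcG])
    hpG (by rw [hg1' p hpp (hpT.trans hT₂TT)]; simp)
  have b2 := hKC P (by omega) D₁ x₁ (by omega) (by omega) G H g' 0 TT hGH cG₁ p₂ hp₂p hPp₂ hp₂κ
    (Nat.zero_le _) (hp₂T.trans hT₂TT) 1 τ 0 (by simp)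
    (by
      refine le_trans (le_of_eq ?_) hτ0.le
      unfold avr
      simp [← hcG₁])
    hp₂G (by rw [hg1' p₂ hp₂p (hp₂T.trans hT₂TT)]; simp)
  have b3 := hKC p₁ (by omega) D x (by omega) (by omega) F G g 0 TT hFG cF p₁ hp₁p le_rfl
    (by
      have : (0 : ℝ) ≤ p₁ := Nat.cast_nonneg _
      nlinarith)
    (Nat.zero_le _) (hp₁T.trans hT₁TT) 1 τ 0 (by simp)
    (by
      refine le_trans (le_of_eq ?_) hτ0.le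
      unfold avr
      simp [← hcF])
    hp₁F (by rw [hg1 p₁ hp₁p (hp₁T.trans hT₁TT)]; simp)
  simp only [one_mul] at b1 b2 b3
  set B : ℝ := 10 * τ + 5 * (0 : ℝ) ^ 2 + 200 * κ with hB
  rw [hx₁P, ← hR, hD₁p₂] at b2
  have b3' : avr (D / (p₁ * p₂)) (fun d => ‖cF (((p₁ * p₂ : ℕ) : ℤ) * d) - cG₁ ((p₂ : ℤ) * d)‖ ^ 2)
      ≤ B + 4 * τ := by
    have e1 : avr D₁ f₁ ≤ B / 4 := by
      rw [quarter] at b3
      change 4 * avr D₁ f₁ ≤ B at b3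
      linarith
    have e2 := (abs_le.mp hp₂1).2
    rw [quarter]
    have e3 : (fun d : ℤ => ‖cF (((p₁ * p₂ : ℕ) : ℤ) * d) - cG₁ ((p₂ : ℤ) * d)‖ ^ 2 / 4)
        = fun d => f₁ ((p₂ : ℤ) * d) := by
      funext d
      rw [hf₁]
      simp only
      congr 5
      push_cast
      ring
    rw [e3, ← hD₁p₂]
    linarith
  have hres' : avr D h ≤ ε / 200 / 4 := by
    rw [quarter] at hres
    change 4 * avr D h ≤ _ at hres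
    linarith
  have b4 : avr (D / (p₁ * p₂)) (fun d => ‖cF (((p₁ * p₂ : ℕ) : ℤ) * d)
      - St M D cF (((p₁ * p₂ : ℕ) : ℤ) * d)‖ ^ 2) ≤ ε / 200 + 8 * τ := by
    have e1 : avr D₁ f₂ ≤ ε / 200 / 4 + τ := by
      have := (abs_le.mp hp₁h).2
      change avr D₁ f₂ - avr D h ≤ τ at this
      linarith
    have e2 := (abs_le.mp hp₂2).2
    rw [quarter]
    have e3 : (fun d : ℤ => ‖cF (((p₁ * p₂ : ℕ) : ℤ) * d) - St M D cF (((p₁ * p₂ : ℕ) : ℤ) * d)‖ ^ 2 / 4)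
        = fun d => f₂ ((p₂ : ℤ) * d) := by
      funext d
      rw [hf₂, hh]
      simp only
      have : ((p₁ * p₂ : ℕ) : ℤ) * d = (p₁ : ℤ) * ((p₂ : ℤ) * d) := by
        push_cast
        ring
      rw [this]
    rw [e3, ← hD₁p₂]
    linarith
  have b5 := hKI Pb hPR1 D (by omega) p (p₁ * p₂) 1 hPp hPbpp hpκ hppκ (by rw [one_mul, hmod])
    cF hcFn
  simp only [Sta_one] at b5
  have b6 : avr (D / p) (fun d => ‖cF ((p : ℤ) * d) - St M D cF ((p : ℤ) * d)‖ ^ 2)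
      ≤ ε / 200 + 4 * τ := by
    rw [quarter]
    change 4 * avr (D / p) (fun d => h ((p : ℤ) * d)) ≤ _
    have := (abs_le.mp hph).2
    linarith
  -- on the common range
  have c1 : avr X (fun d => ‖cG ((p : ℤ) * d) - R d‖ ^ 2) ≤ 2 * B :=
    (avr_le_two X (D / p) hX0 hXp hX2p _ fun _ => by positivity).trans (by gcongr)
  have c2 : avr X (fun d => ‖cG₁ ((p₂ : ℤ) * d) - R d‖ ^ 2) ≤ 2 * B :=
    (avr_le_two X (D / (p₁ * p₂)) hX0 hXp' hX2p' _ fun _ => by positivity).trans (by gcongr)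
  have c3 : avr X (fun d => ‖cF (((p₁ * p₂ : ℕ) : ℤ) * d) - cG₁ ((p₂ : ℤ) * d)‖ ^ 2)
      ≤ 2 * (B + 4 * τ) :=
    (avr_le_two X (D / (p₁ * p₂)) hX0 hXp' hX2p' _ fun _ => by positivity).trans (by gcongr)
  have c4 : avr X (fun d => ‖cF (((p₁ * p₂ : ℕ) : ℤ) * d)
      - St M D cF (((p₁ * p₂ : ℕ) : ℤ) * d)‖ ^ 2) ≤ 2 * (ε / 200 + 8 * τ) :=
    (avr_le_two X (D / (p₁ * p₂)) hX0 hXp' hX2p' _ fun _ => by positivity).trans (by gcongr)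
  have c6 : avr X (fun d => ‖cF ((p : ℤ) * d) - St M D cF ((p : ℤ) * d)‖ ^ 2)
      ≤ 2 * (ε / 200 + 4 * τ) :=
    (avr_le_two X (D / p) hX0 hXp hX2p _ fun _ => by positivity).trans (by gcongr)
  have c7 : avr X (fun d => ‖cG ((p : ℤ) * d) - cF ((p : ℤ) * d)‖ ^ 2)
      ≤ 6 * (2 * B + 2 * B + 2 * (B + 4 * τ) + 2 * (ε / 200 + 8 * τ) + 20 * M * κ
        + 2 * (ε / 200 + 4 * τ)) := by
    refine (avr_le _ _ (fun d : ℤ => 6 * (‖cG ((p : ℤ) * d) - R d‖ ^ 2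
      + ‖cG₁ ((p₂ : ℤ) * d) - R d‖ ^ 2
      + ‖cF (((p₁ * p₂ : ℕ) : ℤ) * d) - cG₁ ((p₂ : ℤ) * d)‖ ^ 2
      + ‖cF (((p₁ * p₂ : ℕ) : ℤ) * d) - St M D cF (((p₁ * p₂ : ℕ) : ℤ) * d)‖ ^ 2
      + ‖St M D cF (((p₁ * p₂ : ℕ) : ℤ) * d) - St M D cF ((p : ℤ) * d)‖ ^ 2
      + ‖cF ((p : ℤ) * d) - St M D cF ((p : ℤ) * d)‖ ^ 2)) fun d _ _ =>
        norm6 _ _ _ _ _ _ _).trans ?_
    rw [avr_mul_left, avr_add, avr_add, avr_add, avr_add, avr_add]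
    gcongr
  have c8 : avr X (fun d => f ((p : ℤ) * d)) ≤ 6 * (2 * B + 2 * B + 2 * (B + 4 * τ)
      + 2 * (ε / 200 + 8 * τ) + 20 * M * κ + 2 * (ε / 200 + 4 * τ)) / 4 := by
    rw [quarter] at c7
    change 4 * avr X (fun d => f ((p : ℤ) * d)) ≤ _ at c7
    linarith
  have c9 := avr_sub_le X (D / p) hX0 hXp (fun d => f ((p : ℤ) * d)) (fun d => hf01 _)
  have c10 : 1 - (X : ℝ) / ((D / p : ℕ) : ℝ) ≤ 3 * κ := by
    have e1 : (0 : ℝ) < ((D / p : ℕ) : ℝ) := by exact_mod_cast q1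
    have e2 : ((D / p : ℕ) : ℝ) ≤ Y := by exact_mod_cast q2
    have e3 : 1 - 3 * κ ≤ (X : ℝ) / ((D / p : ℕ) : ℝ) := by
      rw [le_div_iff₀ e1]
      refine le_trans ?_ hXY
      have : 0 ≤ 1 - 3 * κ := by linarith
      gcongr
    linarith
  have c11 := (abs_le.mp hpf).1
  rw [quarter]
  change 4 * avr D f ≤ ε
  have hκM' : κ * (M + 1) ≤ ε / 20000 := by
    rw [le_div_iff₀ (by positivity)] at hκM
    linarith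
  have hB' : B = 10 * τ + 200 * κ := by rw [hB]; ring
  rw [hB'] at c8
  have hκM0 : 0 ≤ κ * M := by positivity
  nlinarith

end Pool.Agent.N781.OM
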