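import Mathlib
import Pool.Agent.N781.OM.Main
import Pool.Agent.N781.OM.Two
import Pool.Agent.N781.S.IsoAll

/-! Final forms. -/

namespace Pool.Agent.N781.OM

open Finset Pool.Agent.N675 Pool.Agent.N781.FV Pool.Agent.N781.A Pool.Agent.N781.S

theorem strA2 : S_STR2 :=
  str2 eng2A N776.A.perm N776.A.mono N776.A.phase Pool.Agent.N362.A.Shape.shape N781.A.U2.xx
    N319.S.ce N319.S.stmaj N319.S.wsmall dil1 dil2 t_FAM2

/-- the sizes -/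
lemma size (K0 R D x : ℕ) (hD' : K0 * (R + 1) ≤ D) (hDx : D ≤ R * x) (_ : 0 < K0) :
    K0 ≤ D ∧ K0 ≤ x := by
  refine ⟨le_trans (Nat.le_mul_of_pos_right _ (Nat.succ_pos R)) hD', ?_⟩
  by_contra hcon
  push Not at hcon
  have h1 : K0 * (R + 1) ≤ R * x := hD'.trans hDx
  have h2 : R * x ≤ R * K0 := Nat.mul_le_mul_left R hcon.le
  have h3 : K0 * (R + 1) = R * K0 + K0 := by ring
  omega

theorem shift_ms (R k : ℕ) (a b : Fin k → ℤ) (hk : 0 < k) (ha : ∀ i, a i ≠ 0) (ε : ℝ)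
    (hε : 0 < ε) : ∃ K : ℕ, ∀ D x : ℕ, K ≤ D → D ≤ R * x →
      ∀ (F G H : Fin k → ℤ → ℂ) (g g' : Fin k → ℕ → ℂ), (∀ T, MG F g G 0 T) →
      (∀ T, MG G g' H 0 T) → (∀ p, p.Prime → ∏ i, g i p = 1) → (∀ p, p.Prime → ∏ i, g' i p = 1) →
      avr D (fun d => ‖cc a b G x d - cc a b F x d‖ ^ 2) ≤ ε := by
  obtain ⟨ε₁, hε₁, hcore⟩ := shift_core Pool.Agent.N9.S.Pair.pair Pool.Agent.N97.CH.idx cmp2
    dil1 dil2 (Fin k) a b ha ε hε
  obtain ⟨i₀, K1, hK1⟩ := strA2 R k a b hk ha ε₁ hε₁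
  obtain ⟨T, K2, hK2⟩ := hcore i₀.factorial (Nat.factorial_pos _)
  refine ⟨(K1 + K2 + 1) * (R + 1), fun D x hD' hDx F G H g g' hFG hGH hg hg' => ?_⟩
  obtain ⟨hD, hx⟩ := size (K1 + K2 + 1) R D x hD' hDx (by omega)
  exact hK2 D x (by omega) (by omega) F G H g g' (hFG T)
    (hGH T) (fun p hp _ => hg p hp) (fun p hp _ => hg' p hp)
    (hK1 D x (by omega) hDx F G g hFG)

theorem shift_final (R k : ℕ) (a b : Fin k → ℤ) (hk : 0 < k) (ha : ∀ i, a i ≠ 0) (ε : ℝ)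
    (hε : 0 < ε) : ∃ K : ℕ, ∀ D x : ℕ, K ≤ D → D ≤ R * x →
      ∀ (F G H : Fin k → ℤ → ℂ) (g g' : Fin k → ℕ → ℂ), (∀ T, MG F g G 0 T) →
      (∀ T, MG G g' H 0 T) → (∀ p, p.Prime → ∏ i, g i p = 1) → (∀ p, p.Prime → ∏ i, g' i p = 1) →
      ∑ d ∈ Icc (1 : ℤ) D, ‖cc a b G x d - cc a b F x d‖ ≤ ε * D := by
  obtain ⟨ε₁, hε₁, hcore⟩ := shift_core Pool.Agent.N9.S.Pair.pair Pool.Agent.N97.CH.idx cmp2
    dil1 dil2 (Fin k) a b ha (ε ^ 2) (by positivity)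
  obtain ⟨i₀, K1, hK1⟩ := strA2 R k a b hk ha ε₁ hε₁
  obtain ⟨T, K2, hK2⟩ := hcore i₀.factorial (Nat.factorial_pos _)
  refine ⟨(K1 + K2 + 1) * (R + 1), fun D x hD' hDx F G H g g' hFG hGH hg hg' => ?_⟩
  obtain ⟨hD, hx⟩ := size (K1 + K2 + 1) R D x hD' hDx (by omega)
  exact sum_le_of_avr D (by omega) _ ε hε.le (hK2 D x (by omega) (by omega) F G H g g' (hFG T)
    (hGH T) (fun p hp _ => hg p hp) (fun p hp _ => hg' p hp)
    (hK1 D x (by omega) hDx F G g hFG))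

/-- functions of `gcd(r, Q)` -/
lemma gcd_inv {Q : ℕ} (hQ : 0 < Q) (s : ℤ → ℂ) (h1 : ∀ r n : ℤ, IsCoprime n (Q : ℤ) → s (n * r) = s r)
    (h2 : ∀ r : ℤ, s (r + Q) = s r) (r : ℤ) : s r = s (Int.gcd r Q : ℕ) := by
  have : NeZero Q := ⟨hQ.ne'⟩
  have hper : ∀ r r' : ℤ, (r : ZMod Q) = (r' : ZMod Q) → s r = s r' := by
    intro r r' h
    rw [ZMod.intCast_eq_intCast_iff] at h
    obtain ⟨m, hm⟩ := h.dvd
    have e : ∀ (j : ℕ) (r : ℤ), s (r + j * Q) = s r := by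
      intro j
      induction j with
      | zero => intro r; simp
      | succ j ih =>
        intro r
        have : r + ((j + 1 : ℕ) : ℤ) * Q = (r + j * Q) + Q := by push_cast; ring
        rw [this, h2, ih]
    have e2 : r' = r + Q * m := by linarith
    rcases le_total 0 m with hm0 | hm0
    · lift m to ℕ using hm0
      rw [e2, mul_comm, e]
    · obtain ⟨j, hj⟩ : ∃ j : ℕ, m = -(j : ℤ) := ⟨(-m).toNat, by omega⟩
      have e3 : r = r' + j * Q := by rw [e2, hj]; ring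
      rw [e3, e]
  obtain ⟨e, he, u, hu, hre⟩ := ZMod.eq_unit_mul_divisor (r : ZMod Q)
  obtain ⟨v, rfl⟩ := hu
  set n : ℤ := ((v : ZMod Q).val : ℤ) with hn
  have hnc : ((n : ℤ) : ZMod Q) = v := by
    rw [hn, Int.cast_natCast, ZMod.natCast_zmod_val]
  have hcop : IsCoprime n (Q : ℤ) := by
    rw [hn]
    exact Nat.isCoprime_iff_coprime.mpr (ZMod.val_coe_unit_coprime v)
  have e1 : s r = s (n * e) := hper _ _ (by rw [hre]; push_cast; rw [hnc])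
  have hg : Int.gcd r Q = e := by
    have h4 : (r : ZMod Q) = ((n * e : ℤ) : ZMod Q) := by rw [hre]; push_cast; rw [hnc]
    rw [ZMod.intCast_eq_intCast_iff] at h4
    obtain ⟨m, hm⟩ := h4.dvd
    have heQ : (e : ℤ) ∣ Q := Int.natCast_dvd_natCast.mpr he
    have her : (e : ℤ) ∣ r := by
      have : r = n * e - Q * m := by linarith
      rw [this]
      exact dvd_sub (Dvd.intro_left _ rfl) (heQ.mul_right _)
    have hgr : ((Int.gcd r Q : ℕ) : ℤ) ∣ r := Int.gcd_dvd_left _ _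
    have hgQ : ((Int.gcd r Q : ℕ) : ℤ) ∣ Q := Int.gcd_dvd_right _ _
    have hge : ((Int.gcd r Q : ℕ) : ℤ) ∣ e := by
      have h5 : ((Int.gcd r Q : ℕ) : ℤ) ∣ n * e := by
        have : n * e = r + Q * m := by linarith
        rw [this]
        exact dvd_add hgr (hgQ.mul_right _)
      have h6 : IsCoprime ((Int.gcd r Q : ℕ) : ℤ) n := (hcop.of_isCoprime_of_dvd_right hgQ).symm
      exact h6.dvd_of_dvd_mul_left h5
    have h7 : (e : ℤ) ∣ (Int.gcd r Q : ℕ) := Int.dvd_coe_gcd her heQ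
    exact Nat.dvd_antisymm (Int.natCast_dvd_natCast.mp hge) (Int.natCast_dvd_natCast.mp h7)
  rw [e1, h1 _ _ hcop, hg]

theorem gcd_final (R k : ℕ) (a b : Fin k → ℤ) (hk : 0 < k) (ha : ∀ i, a i ≠ 0) (ε : ℝ)
    (hε : 0 < ε) : ∃ Q K : ℕ, 0 < Q ∧ ∀ D x : ℕ, K ≤ D → D ≤ R * x →
      ∀ (F G : Fin k → ℤ → ℂ) (g : Fin k → ℕ → ℂ), (∀ T, MG F g G 0 T) →
      (∀ p, p.Prime → ∏ i, g i p = 1) →
      ∃ s : ℤ → ℕ → ℂ, ∑ d ∈ Icc (1 : ℤ) D, ‖cc a b F x d - s ((d - 1) * Q / D) (Int.gcd d Q)‖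
        ≤ ε * D := by
  classical
  obtain ⟨ε₁, η, hε₁, hη, hcore⟩ := iso_core2 Pool.Agent.N9.S.Pair.pair Pool.Agent.N97.CH.idx cmp2
    dil1 dil2 (Fin k) a b ha ((ε / 2) ^ 2) (by positivity)
  obtain ⟨i₀, K1, hK1⟩ := strA2 R k a b hk ha (min ε₁ ((ε / 2) ^ 2)) (lt_min hε₁ (by positivity))
  set M := i₀.factorial with hM
  have hM0 : 0 < M := Nat.factorial_pos _
  have : NeZero M := ⟨hM0.ne'⟩
  have hex : ∀ (e : (ZMod M)ˣ), ∃ T K : ℕ, ∀ D x : ℕ, K ≤ D → K ≤ x →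
    ∀ (F G : Fin k → ℤ → ℂ) (g : Fin k → ℕ → ℂ), MG F g G 0 T →
    ∀ (ψ : DirichletCharacter ℂ M) (v : ℝ), |v| ≤ 0 →
      ∑ p ∈ (Finset.range (T + 1)).filter (fun p : ℕ => p.Prime ∧ ¬ p ∣ M ∧
        η < ‖∏ i, g i p - ψ (p : ZMod M)
          * Complex.exp (Complex.I * ((v * Real.log p : ℝ) : ℂ))‖), 1 / (p : ℝ) ≤ 0 →
      avr D (fun d => ‖cc a b F x d - St M D (cc a b F x) d‖ ^ 2) ≤ ε₁ →
      avr D (fun d => ‖Sta M D (e : ZMod M).val (cc a b F x) d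
        - ψ (e : ZMod M) * St M D (cc a b F x) d‖ ^ 2) ≤ (ε / 2) ^ 2 := by
    intro e
    obtain ⟨T, K, h⟩ := hcore M (e : ZMod M).val hM0 (ZMod.val_coe_unit_coprime e) 0 0
    refine ⟨T, K, fun D x hD hx F G g hF ψ v hv h1 h2 => ?_⟩
    have := h D x hD hx F G g hF ψ v hv h1 h2
    rwa [ZMod.natCast_zmod_val] at this
  choose TT KK hTK using hex
  refine ⟨M, (K1 + ∑ e, KK e + 1) * (R + 1), hM0, ?_⟩
  intro D x hD' hDx F G g hFG hone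
  obtain ⟨hD, hx⟩ := size (K1 + ∑ e, KK e + 1) R D x hD' hDx (by omega)
  have hD0 : 0 < D := by omega
  set c := cc a b F x with hc
  have hst : avr D (fun d => ‖c d - St M D c d‖ ^ 2) ≤ min ε₁ ((ε / 2) ^ 2) :=
    hK1 D x (by omega) hDx F G g hFG
  have hst1 := hst.trans (min_le_left _ _)
  have hst2 := hst.trans (min_le_right _ _)
  refine ⟨fun u r => sI M D c 1 u r, ?_⟩
  have h1 := iso_sum hD0 c 1 (ε / 2) (by positivity) hst2 fun e => by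
    have hKe : KK e ≤ ∑ e, KK e :=
      Finset.single_le_sum (f := fun e => KK e) (fun _ _ => Nat.zero_le _) (Finset.mem_univ e)
    refine hTK e D x (by omega) (by omega) F G g (hFG _) 1 0 (by simp) (le_of_eq ?_) hst1
    rw [Finset.sum_eq_zero]
    intro p hp
    exfalso
    rw [Finset.mem_filter] at hp
    obtain ⟨_, hp1, hp2, hp3⟩ := hp
    rw [hone p hp1] at hp3
    have hu : IsUnit (p : ZMod M) :=
      (ZMod.isUnit_iff_coprime _ _).mpr ((Nat.Prime.coprime_iff_not_dvd hp1).mpr hp2)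
    rw [MulChar.one_apply hu] at hp3
    simp at hp3
    linarith
  refine le_trans (le_of_eq ?_) (h1.trans (le_of_eq (by ring)))
  refine Finset.sum_congr rfl fun d _ => ?_
  congr 2
  symm
  refine gcd_inv hM0 (fun r => sI M D c 1 ((d - 1) * M / D) r) (fun r n hn => ?_)
    (fun r => sI_per c 1 _ r) d
  have h2 := sI_mul (D := D) c 1 ((d - 1) * M / D) r n hn
  rw [MulChar.one_apply] at h2
  · simpa using h2
  · rw [ZMod.coe_int_isUnit_iff_isCoprime]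
    exact hn.symm

section

variable {k : ℕ} (f : Fin k → ℕ → ℂ) (h : Fin k → ℕ → ℕ) (φ : Fin k → ℕ → ℂ)

/-- the functions `f_i(n) φ_i(h_i(n) + j)` -/
noncomputable def FO (j : ℕ) (i : Fin k) (m : ℤ) : ℂ := f i m.natAbs * φ i (h i m.natAbs + j)

lemma FO_norm (hf : ∀ i n, ‖f i n‖ ≤ 1) (hφ : ∀ i l, ‖φ i l‖ ≤ 1) (j : ℕ) (i : Fin k) (m : ℤ) :
    ‖FO f h φ j i m‖ ≤ 1 := by
  unfold FO
  rw [norm_mul]
  exact mul_le_one₀ (hf _ _) (norm_nonneg _) (hφ _ _)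

lemma FO_MG (hf : ∀ i n, ‖f i n‖ ≤ 1) (hm : ∀ i (m n : ℕ), m.Coprime n → f i (m * n) = f i m * f i n)
    (hh : ∀ i (p m : ℕ), p.Prime → ¬ p ∣ m → h i (p * m) = h i m + 1) (hφ : ∀ i l, ‖φ i l‖ ≤ 1)
    (j T : ℕ) : MG (FO f h φ j) f (FO f h φ (j + 1)) 0 T := by
  refine ⟨FO_norm f h φ hf hφ j, FO_norm f h φ hf hφ (j + 1), fun i p _ _ _ => hf i p,
    fun i p hp _ _ m hpm => ?_⟩
  have h1 : ¬ p ∣ m.natAbs := fun h2 => hpm (Int.natCast_dvd.mpr h2)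
  unfold FO
  rw [Int.natAbs_mul, Int.natAbs_natCast, hm i _ _ ((Nat.Prime.coprime_iff_not_dvd hp).mpr h1),
    hh i p _ hp h1, mul_assoc]
  congr 3
  ring

end

end Pool.Agent.N781.OM
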